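import Pool.Agent.TH726.OT.Alg

/-!
# The concrete Cuntz algebra: states, faithfulness, generators
-/

set_option autoImplicit false

open scoped InnerProductSpace
open Topology

namespace Pool.Agent.TH726.OT

open Classical in
/-- the indicator function of the squares -/
noncomputable def sqi (i : ℕ) : Bool := decide (∃ m, i = m * m)

lemma sq_aperiodic {a b : ℕ} (hab : a < b) (h : ∀ i, sqi (i + a) = sqi (i + b)) : False := by
  have h1 := h ((a + b) * (a + b) - a)
  have e1 : (a + b) * (a + b) - a + a = (a + b) * (a + b) := Nat.sub_add_cancel (by nlinarith)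
  have e2 : (a + b) * (a + b) - a + b = (a + b) * (a + b) + (b - a) := by omega
  rw [e1, e2] at h1
  have h2 : sqi ((a + b) * (a + b)) = true := by
    simp only [sqi, decide_eq_true_eq]
    exact ⟨_, rfl⟩
  rw [h2] at h1
  have h3 := h1.symm
  simp only [sqi, decide_eq_true_eq] at h3
  obtain ⟨m, hm⟩ := h3
  have h4 : a + b < m := by
    by_contra hcon
    push Not at hcon
    have : m * m ≤ (a + b) * (a + b) := Nat.mul_le_mul hcon hcon
    omega
  have h5 : (a + b + 1) * (a + b + 1) ≤ m * m := Nat.mul_le_mul h4 h4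
  have h6 : (a + b + 1) * (a + b + 1) = (a + b) * (a + b) + 2 * (a + b) + 1 := by ring
  omega

/-- a sequence with no eventual period -/
noncomputable def v₀ : V := ⟨sqi, fun a b h => by
  rcases lt_trichotomy a b with h' | h' | h'
  · exact (sq_aperiodic h' h).elim
  · exact h'
  · exact (sq_aperiodic h' fun i => (h i).symm).elim⟩

instance instNontrivialO2 : Nontrivial O2 := by
  refine ⟨⟨0, 1, fun h => ?_⟩⟩
  have h1 : (0 : BH) = 1 := congrArg Subtype.val h
  have h2 : (0 : H) = bas v₀ := by
    have := congrArg (fun u : BH => u (bas v₀)) h1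
    simpa using this
  have h3 : ‖bas v₀‖ = 1 := bas.orthonormal.1 v₀
  rw [← h2, norm_zero] at h3
  exact zero_ne_one h3

/-- the vector state -/
noncomputable def vst (v : V) : O2 →ₗ[ℂ] ℂ where
  toFun a := ⟪bas v, (a : BH) (bas v)⟫_ℂ
  map_add' a b := by
    rw [← inner_add_right]
    rfl
  map_smul' c a := by
    rw [RingHom.id_apply, smul_eq_mul, ← inner_smul_right]
    rfl

lemma norm_bas (v : V) : ‖bas v‖ = 1 := bas.orthonormal.1 v

lemma vst_isSt (v : V) : IsSt (vst v) where
  star' a := by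
    show ⟪bas v, ((star a : O2) : BH) (bas v)⟫_ℂ = starRingEnd ℂ ⟪bas v, (a : BH) (bas v)⟫_ℂ
    have e : ((star a : O2) : BH) = star (a : BH) := rfl
    rw [e, ContinuousLinearMap.star_eq_adjoint, ContinuousLinearMap.adjoint_inner_right,
      inner_conj_symm]
  pos' a := by
    show 0 ≤ (⟪bas v, ((star a * a : O2) : BH) (bas v)⟫_ℂ).re
    have e : ((star a * a : O2) : BH) = star (a : BH) * (a : BH) := rfl
    rw [e, mul_apply_eq_comp, ContinuousLinearMap.star_eq_adjoint,
      ContinuousLinearMap.adjoint_inner_right]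
    exact inner_self_nonneg (𝕜 := ℂ)
  norm' a := by
    show ‖⟪bas v, (a : BH) (bas v)⟫_ℂ‖ ≤ ‖(a : BH)‖
    refine (norm_inner_le_norm _ _).trans ?_
    rw [norm_bas, one_mul]
    refine ((a : BH).le_opNorm _).trans ?_
    rw [norm_bas, mul_one]
  one' := by
    show ⟪bas v, (1 : BH) (bas v)⟫_ℂ = 1
    rw [one_apply_eq_self, inner_bas, if_pos rfl]

/-- The concrete Cuntz algebra is simple: no state has a GNS representation with a kernel. -/
theorem faithful {φ : O2 →ₗ[ℂ] ℂ} (hφ : IsSt φ) {c : O2}
    (hc : ∀ x, φ (star x * star c * c * x) = 0) : c = 0 := by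
  have hT : ∀ k v, T k v ∈ Q := fun k v => P.le_topologicalClosure (T_mem k v)
  -- the vectors
  have key : ∀ v : V, ⟪bas v, ((star c * c : O2) : BH) (bas v)⟫_ℂ = 0 := by
    intro v
    have hT1 : ∀ k, ‖T k v‖ ≤ 1 := by
      intro k
      have h1 : ‖T k v‖ * ‖T k v‖ ≤ 1 := by
        rw [← CStarRing.norm_star_mul_self, star_T_mul_T]
        exact ContinuousLinearMap.norm_id_le
      nlinarith [norm_nonneg (T k v)]
    refine norm_le_zero_iff.1 (le_of_forall_pos_le_add fun ε hε => ?_)
    rw [zero_add]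
    obtain ⟨x, hx, hxd⟩ := Metric.mem_closure_iff.1
      (show ((star c * c : O2) : BH) ∈ closure (P : Set BH) from (star c * c : O2).2) (ε / 2)
      (by positivity)
    rw [dist_eq_norm] at hxd
    obtain ⟨K, hK⟩ := excise hx v
    have h1 := hK K le_rfl
    let t : O2 := ⟨T K v, hT K v⟩
    let y : O2 := ⟨x, P.le_topologicalClosure hx⟩
    have h2 : star t * y * t = ⟪bas v, x (bas v)⟫_ℂ • (1 : O2) := Subtype.ext h1
    have h3 : φ (star t * y * t) = ⟪bas v, x (bas v)⟫_ℂ := by
      rw [h2, map_smul, hφ.one', smul_eq_mul, mul_one]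
    have h4 : φ (star t * (star c * c) * t) = 0 := by
      have := hc t
      rw [← this]
      simp only [mul_assoc]
    have h5 : ‖φ (star t * (star c * c - y) * t)‖ ≤ ε / 2 := by
      refine (hφ.norm' _).trans ?_
      show ‖star (T K v) * (((star c * c : O2) : BH) - x) * T K v‖ ≤ ε / 2
      refine (norm_mul_le _ _).trans ?_
      refine (mul_le_mul_of_nonneg_right (norm_mul_le _ _) (norm_nonneg _)).trans ?_
      have hs : ‖star (T K v)‖ = ‖T K v‖ := by
        rw [ContinuousLinearMap.star_eq_adjoint]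
        exact ContinuousLinearMap.adjoint.norm_map _
      rw [hs]
      have h6 := hT1 K
      have h7 := norm_nonneg (T K v)
      have h8 := norm_nonneg (((star c * c : O2) : BH) - x)
      calc ‖T K v‖ * ‖((star c * c : O2) : BH) - x‖ * ‖T K v‖
          ≤ 1 * ‖((star c * c : O2) : BH) - x‖ * 1 := by gcongr
        _ = ‖((star c * c : O2) : BH) - x‖ := by ring
        _ ≤ ε / 2 := hxd.le
    have h6 : ‖⟪bas v, x (bas v)⟫_ℂ‖ ≤ ε / 2 := by
      have e : φ (star t * (star c * c - y) * t) = - ⟪bas v, x (bas v)⟫_ℂ := by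
        rw [mul_sub, sub_mul, map_sub, h4, h3, zero_sub]
      rw [e, norm_neg] at h5
      exact h5
    have h7 : ‖⟪bas v, (((star c * c : O2) : BH) - x) (bas v)⟫_ℂ‖ ≤ ε / 2 := by
      refine (norm_inner_le_norm _ _).trans ?_
      rw [norm_bas, one_mul]
      refine (ContinuousLinearMap.le_opNorm _ _).trans ?_
      rw [norm_bas, mul_one]
      exact hxd.le
    have e : ⟪bas v, ((star c * c : O2) : BH) (bas v)⟫_ℂ =
        ⟪bas v, (((star c * c : O2) : BH) - x) (bas v)⟫_ℂ + ⟪bas v, x (bas v)⟫_ℂ := by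
      rw [← inner_add_right]
      congr 1
      rw [sub_apply]
      abel
    rw [e]
    refine (norm_add_le _ _).trans ?_
    linarith
  have hzero : (c : BH) = 0 := by
    refine ext_bas fun v => ?_
    have h1 := key v
    have e : ((star c * c : O2) : BH) = star (c : BH) * (c : BH) := rfl
    rw [e, mul_apply_eq_comp, ContinuousLinearMap.star_eq_adjoint,
      ContinuousLinearMap.adjoint_inner_right, inner_self_eq_zero] at h1
    rw [h1]
    rfl
  exact Subtype.ext hzero

/-- the two generators -/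
noncomputable def gen (b : Bool) : O2 := ⟨s b, P.le_topologicalClosure (s_mem b)⟩

lemma star_gen_mul_gen (b : Bool) : star (gen b) * gen b = 1 := by
  refine Subtype.ext ?_
  show star (s b) * s b = 1
  rw [star_s_mul_s, if_pos rfl]

lemma gen_sum : gen false * star (gen false) + gen true * star (gen true) = 1 :=
  Subtype.ext s_sum

lemma adjoin_gen : (StarAlgebra.adjoin ℂ ({gen false, gen true} : Set O2)).topologicalClosure = ⊤ := by
  rw [eq_top_iff]
  intro a _
  show a ∈ closure ((StarAlgebra.adjoin ℂ ({gen false, gen true} : Set O2) : Set O2))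
  rw [Metric.mem_closure_iff]
  intro ε hε
  obtain ⟨x, hx, hxd⟩ := Metric.mem_closure_iff.1
    (show (a : BH) ∈ closure (P : Set BH) from a.2) ε hε
  have hmap : (StarAlgebra.adjoin ℂ ({gen false, gen true} : Set O2)).map Q.subtype = P := by
    rw [StarAlgHom.map_adjoin]
    congr 1
    rw [Set.image_pair]
    rfl
  have hx' : x ∈ (StarAlgebra.adjoin ℂ ({gen false, gen true} : Set O2)).map Q.subtype := by
    rw [hmap]
    exact hx
  obtain ⟨y, hy, rfl⟩ := hx'
  exact ⟨y, hy, hxd⟩

/-- No nontrivial action. -/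
theorem no_action (α : G → O2 ≃⋆ₐ[ℂ] O2) (hmul : ∀ g h a, α (g * h) a = α g (α h a))
    (hcont : ∀ a, Continuous fun g => α g a) (g : G) (a : O2) : α g a = a := by
  obtain ⟨ψ, hψ, hinv⟩ := exists_invariant α hmul hcont (vst v₀) (vst_isSt v₀)
  exact sub_eq_zero.1 (faithful hψ fun x => invariant_trivial ψ hψ α hmul hcont hinv g a x)

lemma exists_ne_one : ∃ g : G, g ≠ 1 := by
  obtain ⟨g, hg⟩ := exists_mid (n := 2) (by norm_num)
  refine ⟨g, fun h => ?_⟩
  have h1 := hg 1 (by norm_num) (by norm_num)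
  rw [h] at h1
  have h2 : ((1 : G) (pt 2 1) : ℝ) = (1 : ℕ) / (2 : ℕ) := coe_pt (by norm_num)
  rw [h2] at h1
  norm_num at h1

end Pool.Agent.TH726.OT
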