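import Pool.Agent.TH726.OT.Inv

/-!
# A concrete Cuntz algebra and its simplicity

The Cuntz algebra `O₂` is represented on `ℓ²(V)`, where `V` is the set of the binary sequences with
no eventual period.
-/

set_option autoImplicit false

open scoped InnerProductSpace
open Topology

namespace Pool.Agent.TH726.OT

/-- the binary sequences with no eventual period -/
def V : Type := {v : ℕ → Bool // ∀ a b, (∀ i, v (i + a) = v (i + b)) → a = b}

/-- the Hilbert space `ℓ²(V)` -/
abbrev H : Type := lp (fun _ : V => ℂ) 2

/-- the operators on `ℓ²(V)` -/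
abbrev BH : Type := H →L[ℂ] H

/-- the standard basis -/
noncomputable def bas : HilbertBasis V ℂ H := ⟨LinearIsometryEquiv.refl ℂ H⟩

lemma ext_bas {K : Type} [NormedAddCommGroup K] [InnerProductSpace ℂ K] {S T : H →L[ℂ] K}
    (h : ∀ n, S (bas n) = T (bas n)) : S = T := by
  refine ContinuousLinearMap.ext_on (s := Set.range bas) ?_ ?_
  · have := bas.dense_span
    rw [Submodule.dense_iff_topologicalClosure_eq_top]
    exact this
  · rintro _ ⟨n, rfl⟩
    exact h n

lemma ext_inner_bas {x y : H} (h : ∀ n, ⟪bas n, x⟫_ℂ = ⟪bas n, y⟫_ℂ) : x = y := by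
  apply bas.repr.injective
  ext n
  rw [bas.repr_apply_apply, bas.repr_apply_apply, h n]

/-- shifting by `n` places -/
def sh (n : ℕ) (v : V) : V := ⟨fun i => v.1 (i + n), fun a b h => by
  have := v.2 (a + n) (b + n) (fun i => by
    have := h i
    simp only [add_assoc] at this
    exact this)
  omega⟩

/-- adding a digit at the beginning -/
def cons (b : Bool) (v : V) : V := ⟨fun i => Nat.casesOn i b fun j => v.1 j, fun a b' h => by
  refine v.2 a b' fun i => ?_
  have := h (i + 1)
  have e1 : i + 1 + a = (i + a) + 1 := by ring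
  have e2 : i + 1 + b' = (i + b') + 1 := by ring
  rw [e1, e2] at this
  exact this⟩

lemma cons_zero (b : Bool) (v : V) : (cons b v).1 0 = b := rfl

lemma cons_succ (b : Bool) (v : V) (i : ℕ) : (cons b v).1 (i + 1) = v.1 i := rfl

lemma cons_inj (b : Bool) : Function.Injective (cons b) := by
  intro v w h
  refine Subtype.ext (funext fun i => ?_)
  rw [← cons_succ b v i, h, cons_succ]

lemma cons_ne {b c : Bool} (h : b ≠ c) (v w : V) : cons b v ≠ cons c w := by
  intro h'
  apply h
  rw [← cons_zero b v, h', cons_zero]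

lemma cons_sh (v : V) : cons (v.1 0) (sh 1 v) = v := by
  refine Subtype.ext (funext fun i => ?_)
  cases i with
  | zero => rfl
  | succ i => rfl

lemma sh_sh (m n : ℕ) (v : V) : sh m (sh n v) = sh (m + n) v := by
  refine Subtype.ext (funext fun i => ?_)
  show v.1 (i + m + n) = v.1 (i + (m + n))
  rw [add_assoc]

lemma sh_zero (v : V) : sh 0 v = v := rfl

lemma ons (b : Bool) : Orthonormal ℂ (fun n => bas (cons b n)) :=
  bas.orthonormal.comp (cons b) (cons_inj b)

/-- the Cuntz isometries -/
noncomputable def s (b : Bool) : BH :=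
  ((ons b).orthogonalFamily.linearIsometry).toContinuousLinearMap

lemma s_bas (b : Bool) (n : V) : s b (bas n) = bas (cons b n) := by
  classical
  have h : bas n = lp.single 2 n (1 : ℂ) := by
    rw [← bas.repr_symm_single n]
    rfl
  rw [h]
  show (ons b).orthogonalFamily.linearIsometry (lp.single 2 n (1 : ℂ)) = _
  rw [OrthogonalFamily.linearIsometry_apply_single]
  simp [LinearIsometry.toSpanSingleton_apply]

open Classical in
lemma inner_bas (m n : V) : ⟪bas m, bas n⟫_ℂ = if m = n then 1 else 0 :=
  orthonormal_iff_ite.1 bas.orthonormal m n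

lemma star_s_bas (b c : Bool) (n : V) :
    star (s b) (bas (cons c n)) = if b = c then bas n else 0 := by
  rw [ContinuousLinearMap.star_eq_adjoint]
  refine ext_inner_bas fun m => ?_
  rw [ContinuousLinearMap.adjoint_inner_right, s_bas, inner_bas]
  by_cases hbc : b = c
  · subst hbc
    rw [if_pos rfl, inner_bas]
    by_cases hmn : m = n
    · rw [if_pos hmn, if_pos (by rw [hmn])]
    · rw [if_neg hmn, if_neg (fun h => hmn (cons_inj b h))]
  · rw [if_neg hbc, if_neg (cons_ne hbc m n), inner_zero_right]

lemma star_s_mul_s (b c : Bool) : star (s b) * s c = if b = c then 1 else 0 := by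
  refine ext_bas fun n => ?_
  rw [mul_apply_eq_comp, s_bas, star_s_bas]
  split_ifs with h
  · rfl
  · rfl

lemma s_sum : s false * star (s false) + s true * star (s true) = 1 := by
  refine ext_bas fun n => ?_
  rw [← cons_sh n]
  rw [add_apply, mul_apply_eq_comp, mul_apply_eq_comp,
    star_s_bas, star_s_bas]
  cases n.1 0 <;> simp [s_bas]

/-- the isometry of a word -/
noncomputable def S (μ : List Bool) : BH := (μ.map s).prod

@[simp] lemma S_nil : S [] = 1 := rfl

@[simp] lemma S_cons (b : Bool) (μ : List Bool) : S (b :: μ) = s b * S μ := by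
  simp [S]

lemma S_append (μ ν : List Bool) : S (μ ++ ν) = S μ * S ν := by simp [S]

/-- the isometry of the first `k` digits of a sequence -/
noncomputable def T : ℕ → V → BH
  | 0, _ => 1
  | k + 1, v => s (v.1 0) * T k (sh 1 v)

lemma star_T_mul_T (k : ℕ) (v : V) : star (T k v) * T k v = 1 := by
  induction k generalizing v with
  | zero => simp [T]
  | succ k ih =>
    rw [T, star_mul, mul_assoc, ← mul_assoc (star (s (v.1 0))), star_s_mul_s, if_pos rfl, one_mul,
      ih]

lemma star_T_mul_T_ne (i : ℕ) (k l : ℕ) (v w : V) (hk : i < k) (hl : i < l) (h : v.1 i ≠ w.1 i) :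
    star (T k v) * T l w = 0 := by
  induction i generalizing k l v w with
  | zero =>
    obtain ⟨k, rfl⟩ := Nat.exists_eq_succ_of_ne_zero hk.ne'
    obtain ⟨l, rfl⟩ := Nat.exists_eq_succ_of_ne_zero hl.ne'
    rw [T, T, star_mul, mul_assoc, ← mul_assoc (star (s (v.1 0))), star_s_mul_s, if_neg h, zero_mul,
      mul_zero]
  | succ i ih =>
    obtain ⟨k, rfl⟩ := Nat.exists_eq_succ_of_ne_zero (show k ≠ 0 by omega)
    obtain ⟨l, rfl⟩ := Nat.exists_eq_succ_of_ne_zero (show l ≠ 0 by omega)
    rw [T, T, star_mul, mul_assoc, ← mul_assoc (star (s (v.1 0))), star_s_mul_s]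
    split_ifs with h0
    · rw [one_mul]
      exact ih k l _ _ (by omega) (by omega) h
    · rw [zero_mul, mul_zero]

lemma star_S_T (ν : List Bool) (v : V) : ∃ c : ℂ,
    (∀ k, star (S ν) * T (k + ν.length) v = c • T k (sh ν.length v)) ∧
      star (S ν) (bas v) = c • bas (sh ν.length v) := by
  induction ν generalizing v with
  | nil => exact ⟨1, fun k => by simp [sh_zero], by simp [sh_zero]⟩
  | cons b ν ih =>
    obtain ⟨c, h1, h2⟩ := ih (sh 1 v)
    refine ⟨if b = v.1 0 then c else 0, fun k => ?_, ?_⟩
    · rw [S_cons, star_mul, List.length_cons, ← add_assoc, T, mul_assoc, ← mul_assoc (star (s b)),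
        star_s_mul_s]
      split_ifs with h
      · rw [one_mul, h1, sh_sh]
      · simp
    · rw [S_cons, star_mul, mul_apply_eq_comp, List.length_cons]
      conv_lhs => rw [← cons_sh v]
      rw [star_s_bas]
      split_ifs with h
      · rw [h2, sh_sh]
      · simp

lemma excise_word (μ ν : List Bool) (v : V) : ∃ K, ∀ k ≥ K,
    star (T k v) * (S μ * star (S ν)) * T k v = ⟪bas v, (S μ * star (S ν)) (bas v)⟫_ℂ • 1 := by
  obtain ⟨c, h1, h2⟩ := star_S_T μ v
  obtain ⟨d, h3, h4⟩ := star_S_T ν v
  have hin : ⟪bas v, (S μ * star (S ν)) (bas v)⟫_ℂ =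
      starRingEnd ℂ c * (d * ⟪bas (sh μ.length v), bas (sh ν.length v)⟫_ℂ) := by
    rw [mul_apply_eq_comp, ← ContinuousLinearMap.adjoint_inner_left,
      ← ContinuousLinearMap.star_eq_adjoint, h2, h4, inner_smul_left, inner_smul_right]
  have hop : ∀ k, μ.length ≤ k → ν.length ≤ k →
      star (T k v) * (S μ * star (S ν)) * T k v =
        (starRingEnd ℂ c * d) •
          (star (T (k - μ.length) (sh μ.length v)) * T (k - ν.length) (sh ν.length v)) := by
    intro k hk hk'
    have e1 := h1 (k - μ.length)
    have e2 := h3 (k - ν.length)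
    rw [Nat.sub_add_cancel hk] at e1
    rw [Nat.sub_add_cancel hk'] at e2
    calc star (T k v) * (S μ * star (S ν)) * T k v
        = star (star (S μ) * T k v) * (star (S ν) * T k v) := by
          rw [star_mul, star_star]
          simp only [mul_assoc]
      _ = _ := by
          rw [e1, e2, star_smul, smul_mul_smul_comm]
          rfl
  by_cases hl : μ.length = ν.length
  · refine ⟨μ.length, fun k hk => ?_⟩
    rw [hop k hk (hl ▸ hk), hin, hl, star_T_mul_T, inner_bas, if_pos rfl, mul_one]
  · have : ¬ ∀ i, v.1 (i + μ.length) = v.1 (i + ν.length) := fun h => hl (v.2 _ _ h)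
    push Not at this
    obtain ⟨i, hi⟩ := this
    refine ⟨i + μ.length + ν.length + 1, fun k hk => ?_⟩
    rw [hop k (by omega) (by omega), hin, inner_bas, if_neg, mul_zero, mul_zero, zero_smul,
      star_T_mul_T_ne i _ _ _ _ (by omega) (by omega) hi, smul_zero]
    intro h
    exact hi (congrArg (fun u : V => u.1 i) h)

/-- the dense subalgebra -/
noncomputable abbrev P : StarSubalgebra ℂ BH := StarAlgebra.adjoin ℂ {s false, s true}

lemma s_mem (b : Bool) : s b ∈ P := by
  refine StarAlgebra.subset_adjoin ℂ _ ?_
  cases b <;> simp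

lemma T_mem (k : ℕ) (v : V) : T k v ∈ P := by
  induction k generalizing v with
  | zero => exact one_mem _
  | succ k ih => exact mul_mem (s_mem _) (ih _)

/-- the words -/
lemma mem_closure_words {x : BH}
    (hx : x ∈ Submonoid.closure (({s false, s true} : Set BH) ∪ star {s false, s true})) :
    x = 0 ∨ ∃ μ ν, x = S μ * star (S ν) := by
  induction hx using Submonoid.closure_induction_left with
  | one => exact Or.inr ⟨[], [], by simp⟩
  | mul_left y hy z hz ih =>
    have hy' : (∃ b, y = s b) ∨ ∃ b, y = star (s b) := by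
      rcases hy with hy | hy
      · left
        rcases hy with rfl | hy
        · exact ⟨_, rfl⟩
        · exact ⟨true, hy⟩
      · right
        rw [Set.mem_star] at hy
        rcases hy with hy | hy
        · exact ⟨false, by rw [← hy, star_star]⟩
        · refine ⟨true, ?_⟩
          have : star y = s true := hy
          rw [← this, star_star]
    rcases ih with rfl | ⟨μ, ν, rfl⟩
    · left
      rw [mul_zero]
    · rcases hy' with ⟨b, rfl⟩ | ⟨b, rfl⟩
      · right
        exact ⟨b :: μ, ν, by rw [S_cons, mul_assoc]⟩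
      · cases μ with
        | nil =>
          right
          refine ⟨[], ν ++ [b], ?_⟩
          rw [S_append, star_mul]
          simp
        | cons c μ =>
          rw [S_cons, ← mul_assoc, ← mul_assoc, star_s_mul_s]
          by_cases h : b = c
          · right
            exact ⟨μ, ν, by rw [if_pos h, one_mul]⟩
          · left
            rw [if_neg h, zero_mul, zero_mul]

lemma excise {x : BH} (hx : x ∈ P) (v : V) : ∃ K, ∀ k ≥ K,
    star (T k v) * x * T k v = ⟪bas v, x (bas v)⟫_ℂ • 1 := by
  have hx' : x ∈ Algebra.adjoin ℂ (({s false, s true} : Set BH) ∪ star {s false, s true}) := hx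
  rw [← Subalgebra.mem_toSubmodule, Algebra.adjoin_eq_span] at hx'
  clear hx
  induction hx' using Submodule.span_induction with
  | mem y hy =>
    rcases mem_closure_words hy with rfl | ⟨μ, ν, rfl⟩
    · exact ⟨0, fun k _ => by simp⟩
    · exact excise_word μ ν v
  | zero => exact ⟨0, fun k _ => by simp⟩
  | add y z hy hz ihy ihz =>
    obtain ⟨K, hK⟩ := ihy
    obtain ⟨L, hL⟩ := ihz
    refine ⟨max K L, fun k hk => ?_⟩
    rw [mul_add, add_mul, hK k (le_of_max_le_left hk), hL k (le_of_max_le_right hk), add_apply,
      inner_add_right, add_smul]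
  | smul c y hy ihy =>
    obtain ⟨K, hK⟩ := ihy
    refine ⟨K, fun k hk => ?_⟩
    rw [mul_smul_comm, smul_mul_assoc, hK k hk, smul_apply, inner_smul_right, mul_smul]

/-- the concrete Cuntz algebra -/
noncomputable abbrev Q : StarSubalgebra ℂ BH := P.topologicalClosure

instance instClosedQ : IsClosed (Q : Set BH) := P.isClosed_topologicalClosure

/-- the concrete Cuntz algebra, as a type -/
abbrev O2 : Type := Q

noncomputable instance instO2 : CStarAlgebra O2 := StarSubalgebra.cstarAlgebra Q

end Pool.Agent.TH726.OT
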