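import Mathlib

/-! Infinite Ramsey theorem for `n`-subsets (copied from a starting file). -/

set_option autoImplicit false

namespace Pool.Agent.TH726.OT

theorem ramsey {κ : Type*} [Finite κ] (n : ℕ) : ∀ (c : Finset ℕ → κ) (S : Set ℕ), S.Infinite →
    ∃ T ⊆ S, T.Infinite ∧ ∃ a, ∀ σ : Finset ℕ, (σ : Set ℕ) ⊆ T → σ.card = n → c σ = a := by
  induction n with
  | zero =>
    intro c S hS
    exact ⟨S, subset_rfl, hS, c ∅, fun σ _ h => by rw [Finset.card_eq_zero.1 h]⟩
  | succ n ih =>
    intro c S hS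
    have step : ∀ A : {A : Set ℕ // A.Infinite}, ∃ B : {A : Set ℕ // A.Infinite}, ∃ a : κ,
        B.1 ⊆ {y ∈ A.1 | sInf A.1 < y} ∧
        ∀ σ : Finset ℕ, (σ : Set ℕ) ⊆ B.1 → σ.card = n → c (insert (sInf A.1) σ) = a := by
      intro A
      have hinf : {y ∈ A.1 | sInf A.1 < y}.Infinite := by
        have : A.1 ⊆ {y ∈ A.1 | sInf A.1 < y} ∪ {sInf A.1} := by
          intro y hy
          by_cases h : sInf A.1 < y
          · exact Or.inl ⟨hy, h⟩
          · exact Or.inr (le_antisymm (not_lt.1 h) (Nat.sInf_le hy))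
        intro hfin
        exact A.2 ((hfin.union (Set.finite_singleton _)).subset this)
      obtain ⟨T, hT, hTi, a, ha⟩ := ih (fun σ => c (insert (sInf A.1) σ)) _ hinf
      exact ⟨⟨T, hTi⟩, a, hT, ha⟩
    choose next col hsub hcol using step
    let A : ℕ → {A : Set ℕ // A.Infinite} := fun k => Nat.rec ⟨S, hS⟩ (fun _ B => next B) k
    have hA : ∀ k, A (k + 1) = next (A k) := fun k => rfl
    let x : ℕ → ℕ := fun k => sInf (A k).1
    have hx : ∀ k, x k ∈ (A k).1 := fun k => Nat.sInf_mem (A k).2.nonempty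
    have hstep : ∀ k, (A (k + 1)).1 ⊆ {y ∈ (A k).1 | x k < y} := fun k => hsub (A k)
    have hmono : ∀ k l, k ≤ l → (A l).1 ⊆ (A k).1 := by
      intro k l hkl
      induction l, hkl using Nat.le_induction with
      | base => exact subset_rfl
      | succ l _ ih' => exact (fun y hy => ih' (hstep l hy).1)
    have hlt : ∀ k l, k < l → x k < x l := by
      intro k l hkl
      exact (hstep k (hmono (k + 1) l hkl (hx l))).2
    have hxinj : StrictMono x := fun k l h => hlt k l h
    obtain ⟨a, ha⟩ : ∃ a, (((fun k => col (A k)) ⁻¹' {a}) : Set ℕ).Infinite := by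
      by_contra hcon
      push Not at hcon
      have : (Set.univ : Set ℕ) = ⋃ a, ((fun k => col (A k)) ⁻¹' {a}) := by
        ext k; simp
      have hf : (Set.univ : Set ℕ).Finite := by
        rw [this]
        exact Set.finite_iUnion fun a => hcon a
      exact Set.infinite_univ hf
    refine ⟨x '' ((fun k => col (A k)) ⁻¹' {a}), ?_, ha.image hxinj.injective.injOn, a, ?_⟩
    · rintro _ ⟨k, _, rfl⟩
      exact hmono 0 k (Nat.zero_le _) (hx k)
    · intro σ hσ hcard
      have hne : σ.Nonempty := Finset.card_pos.1 (by omega)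
      obtain ⟨k, hk, hk'⟩ := hσ (Finset.min'_mem σ hne)
      have hk'' : x k = σ.min' hne := hk'
      have hmem : x k ∈ σ := hk'' ▸ Finset.min'_mem σ hne
      have h1 : insert (x k) (σ.erase (x k)) = σ := Finset.insert_erase hmem
      have h2 : ((σ.erase (x k) : Finset ℕ) : Set ℕ) ⊆ (next (A k)).1 := by
        intro y hy
        rw [Finset.mem_coe, Finset.mem_erase] at hy
        obtain ⟨l, _, rfl⟩ := hσ hy.2
        have : x k < x l := lt_of_le_of_ne (hk'' ▸ Finset.min'_le σ _ hy.2) (Ne.symm hy.1)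
        have hkl : k < l := hxinj.lt_iff_lt.1 this
        exact hmono (k + 1) l hkl (hx l)
      have h3 := hcol (A k) (σ.erase (x k)) h2 (by rw [Finset.card_erase_of_mem hmem]; omega)
      have h4 : c σ = col (A k) := by
        rw [← h1]; exact h3
      rw [h4]; exact hk

end Pool.Agent.TH726.OT
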