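import Pool.Agent.TH726.OT.Homeo
import Pool.Agent.TH726.OT.Ram

/-!
# Dynamics of the group of the increasing homeomorphisms of the unit interval

The stabilisers `K n` of the points `j / n`, and the consequence `exists_almost_invariant` of the
Ramsey theorem: extreme amenability of `G` in a finitary form.
-/

set_option autoImplicit false

open Topology unitInterval

namespace Pool.Agent.TH726.OT

/-- the elements of `G` fixing the points `j / n` -/
def K (n : ℕ) : Set G := {k | ∀ x : I, ∀ j : ℕ, (x : ℝ) * n = j → k x = x}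

lemma K_inv {n : ℕ} {k : G} (hk : k ∈ K n) : k⁻¹ ∈ K n := by
  intro x j hx
  have h := hk x j hx
  have : k⁻¹ (k x) = x := by simp
  rw [h] at this
  exact this

lemma K_mul {n : ℕ} {k l : G} (hk : k ∈ K n) (hl : l ∈ K n) : k * l ∈ K n := by
  intro x j hx
  show k (l x) = x
  rw [hl x j hx, hk x j hx]

lemma K_one {n : ℕ} : (1 : G) ∈ K n := fun _ _ _ => rfl

/-- elements of `K n` have small displacement -/
lemma K_disp {n : ℕ} (hn : 0 < n) {k : G} (hk : k ∈ K n) (x : I) :
    |(k x : ℝ) - x| ≤ 1 / n := by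
  have hn' : (0 : ℝ) < n := by exact_mod_cast hn
  rcases lt_or_ge (x : ℝ) 1 with hx1 | hx1
  · set j := ⌊(x : ℝ) * n⌋₊ with hj
    have h1 : (j : ℝ) ≤ (x : ℝ) * n := Nat.floor_le (mul_nonneg x.2.1 hn'.le)
    have h2 : (x : ℝ) * n < j + 1 := Nat.lt_floor_add_one _
    have hjn : j + 1 ≤ n := by
      have : (j : ℝ) < n := lt_of_le_of_lt h1 (by nlinarith)
      have := (Nat.cast_lt (α := ℝ)).1 this
      omega
    have hjn' : ((j : ℝ) + 1) ≤ n := by exact_mod_cast hjn
    let a : I := ⟨(j : ℝ) / n, by positivity, by rw [div_le_one hn']; linarith⟩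
    let b : I := ⟨((j : ℝ) + 1) / n, by positivity, by rw [div_le_one hn']; linarith⟩
    have ha : k a = a := hk a j (by simp only [a]; field_simp)
    have hb : k b = b := hk b (j + 1) (by simp only [b]; push_cast; field_simp)
    have hax : a ≤ x := by
      rw [← Subtype.coe_le_coe]
      simp only [a]
      rw [div_le_iff₀ hn']
      exact h1
    have hxb : x ≤ b := by
      rw [← Subtype.coe_le_coe]
      simp only [b]
      rw [le_div_iff₀ hn']
      exact h2.le
    have h3 : (a : ℝ) ≤ k x := by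
      have := k.monotone hax
      rw [ha] at this
      exact this
    have h4 : (k x : ℝ) ≤ b := by
      have := k.monotone hxb
      rw [hb] at this
      exact this
    have hab : (b : ℝ) - a = 1 / n := by
      simp only [a, b]
      field_simp
      ring
    have h5 : (a : ℝ) ≤ x := hax
    have h6 : (x : ℝ) ≤ b := hxb
    rw [abs_le]
    constructor <;> linarith
  · have hx : (x : ℝ) = 1 := le_antisymm x.2.2 hx1
    have := hk x n (by rw [hx]; ring)
    rw [this, sub_self, abs_zero]
    positivity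

/-- interpolation at finitely many interior points -/
lemma interpFin (N : ℕ) (p q : Fin N → I) (hp : StrictMono p) (hq : StrictMono q)
    (hp0 : ∀ i, 0 < p i) (hp1 : ∀ i, p i < 1) (hq0 : ∀ i, 0 < q i) (hq1 : ∀ i, q i < 1) :
    ∃ g : G, ∀ i, g (p i) = q i := by
  let ext : (Fin N → I) → ℕ → ℝ := fun r j =>
    if j = 0 then 0 else if h : j - 1 < N then (r ⟨j - 1, h⟩ : ℝ) else 1
  have hinc : ∀ r : Fin N → I, StrictMono r → (∀ i, 0 < r i) → (∀ i, r i < 1) →
      ∀ j < N + 1, ext r j < ext r (j + 1) := by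
    intro r hr hr0 hr1 j hj
    simp only [ext]
    rw [if_neg (Nat.succ_ne_zero j)]
    rcases Nat.eq_zero_or_pos j with h0 | h0
    · subst h0
      rw [if_pos rfl]
      split_ifs with h
      · exact hr0 _
      · exact zero_lt_one
    · rw [if_neg h0.ne', dif_pos (show j - 1 < N by omega)]
      split_ifs with h
      · have : (⟨j - 1, by omega⟩ : Fin N) < ⟨j + 1 - 1, h⟩ := by
          rw [Fin.mk_lt_mk]
          omega
        exact hr this
      · exact hr1 _
  have e0 : ∀ r, ext r 0 = 0 := fun r => by simp [ext]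
  have e1 : ∀ r, ext r (N + 1) = 1 := fun r => by simp [ext]
  have ei : ∀ (r : Fin N → I) (i : Fin N), ext r (i + 1) = r i := fun r i => by
    simp [ext]
  obtain ⟨g, hg⟩ := interp (N + 1) (ext p) (ext q) (hinc p hp hp0 hp1) (hinc q hq hq0 hq1)
    (e0 p) (e0 q) (e1 p) (e1 q)
  refine ⟨g, fun i => Subtype.ext ?_⟩
  have := hg (p i) (i + 1) (by omega) (ei p i).symm
  rw [this, ei]

/-- the points `1 - 1 / (k + 2)` -/
noncomputable def sq (k : ℕ) : I := ⟨1 - 1 / ((k : ℝ) + 2), by
  have h : (0 : ℝ) < (k : ℝ) + 2 := by positivity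
  constructor
  · rw [sub_nonneg, div_le_one h]
    have : (0 : ℝ) ≤ k := Nat.cast_nonneg k
    linarith
  · have : (0 : ℝ) < 1 / ((k : ℝ) + 2) := by positivity
    linarith⟩

lemma sq_strictMono : StrictMono sq := by
  intro k l hkl
  rw [← Subtype.coe_lt_coe]
  simp only [sq]
  have h : (0 : ℝ) < (k : ℝ) + 2 := by positivity
  have hkl' : (k : ℝ) < l := by exact_mod_cast hkl
  have := one_div_lt_one_div_of_lt h (show (k : ℝ) + 2 < l + 2 by linarith)
  linarith

lemma sq_pos (k : ℕ) : 0 < sq k := by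
  rw [← Subtype.coe_lt_coe]
  simp only [sq]
  have h : (1 : ℝ) < (k : ℝ) + 2 := by
    have : (0 : ℝ) ≤ k := Nat.cast_nonneg k
    linarith
  have : 1 / ((k : ℝ) + 2) < 1 := by
    rw [div_lt_one (by linarith)]
    exact h
  simpa using this

lemma sq_lt_one (k : ℕ) : sq k < 1 := by
  rw [← Subtype.coe_lt_coe]
  simp only [sq]
  have : (0 : ℝ) < 1 / ((k : ℝ) + 2) := by positivity
  simp only [Set.Icc.coe_one]
  linarith

/-- an element of `G` preserving a finite set fixes its points -/
lemma fix_of_image {F : Finset I} {k : G} (h : F.image k = F) : ∀ x ∈ F, k x = x := by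
  set e := F.orderEmbOfFin rfl with he
  have h1 : (fun i => k (e i)) = e := by
    refine Finset.orderEmbOfFin_unique rfl (fun i => ?_) (fun i j hij => ?_)
    · have h3 : e i ∈ F := Finset.orderEmbOfFin_mem F rfl i
      have := Finset.mem_image_of_mem k h3
      rwa [h] at this
    · exact k.strictMono (e.strictMono hij)
  intro x hx
  have : x ∈ Set.range e := by
    rw [he, Finset.range_orderEmbOfFin]
    exact hx
  obtain ⟨i, rfl⟩ := this
  exact congrFun h1 i

/-- the point `j / n` -/
noncomputable def pt (n j : ℕ) : I := Set.projIcc 0 1 zero_le_one ((j : ℝ) / n)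

lemma coe_pt {n j : ℕ} (hj : j ≤ n) : (pt n j : ℝ) = j / n := by
  rcases Nat.eq_zero_or_pos n with h | h
  · subst h
    simp [pt, Set.projIcc]
  · have hn : (0 : ℝ) < n := by exact_mod_cast h
    have hj' : (j : ℝ) ≤ n := by exact_mod_cast hj
    rw [pt, Set.projIcc_of_mem zero_le_one ⟨by positivity, by rw [div_le_one hn]; exact hj'⟩]

/-- the interior points `j / n` -/
noncomputable def FF (n : ℕ) : Finset I :=
  ((Finset.range n).filter (fun j => 0 < j)).image (pt n)

lemma mem_FF {n : ℕ} {x : I} : x ∈ FF n ↔ ∃ j : ℕ, 0 < j ∧ j < n ∧ (x : ℝ) = j / n := by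
  unfold FF
  rw [Finset.mem_image]
  constructor
  · rintro ⟨j, hj, rfl⟩
    have h := Finset.mem_filter.1 hj
    have h1 := Finset.mem_range.1 h.1
    exact ⟨j, h.2, h1, coe_pt h1.le⟩
  · rintro ⟨j, hj0, hjn, hx⟩
    exact ⟨j, Finset.mem_filter.2 ⟨Finset.mem_range.2 hjn, hj0⟩,
      Subtype.ext (by rw [coe_pt hjn.le, hx])⟩

lemma FF_pos {n : ℕ} {x : I} (hx : x ∈ FF n) : 0 < x := by
  obtain ⟨j, hj0, hjn, hx⟩ := mem_FF.1 hx
  rw [← Subtype.coe_lt_coe, hx]
  have h1 : (0 : ℝ) < j := by exact_mod_cast hj0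
  have h2 : (0 : ℝ) < n := by exact_mod_cast (by omega : 0 < n)
  simpa using div_pos h1 h2

lemma FF_lt_one {n : ℕ} {x : I} (hx : x ∈ FF n) : x < 1 := by
  obtain ⟨j, hj0, hjn, hx⟩ := mem_FF.1 hx
  rw [← Subtype.coe_lt_coe, hx]
  have h2 : (0 : ℝ) < n := by exact_mod_cast (by omega : 0 < n)
  simp only [Set.Icc.coe_one]
  rw [div_lt_one h2]
  exact_mod_cast hjn

lemma G_zero (g : G) : g 0 = 0 := by
  have : g ⊥ = ⊥ := g.map_bot
  exact this

lemma G_one (g : G) : g 1 = 1 := by
  have : g ⊤ = ⊤ := g.map_top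
  exact this

lemma mem_K_of_fix {n : ℕ} (hn : 0 < n) {k : G} (h : ∀ x ∈ FF n, k x = x) : k ∈ K n := by
  intro x j hx
  have hn' : (0 : ℝ) < n := by exact_mod_cast hn
  have hxj : (x : ℝ) = j / n := by
    rw [eq_div_iff hn'.ne']
    exact hx
  rcases Nat.eq_zero_or_pos j with h0 | h0
  · have : x = 0 := Subtype.ext (by rw [hxj, h0]; simp)
    rw [this, G_zero]
  · rcases Nat.lt_or_ge j n with h1 | h1
    · exact h x (mem_FF.2 ⟨j, h0, h1, hxj⟩)
    · have hjn : j = n := by
        have h2 : (j : ℝ) ≤ n := by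
          rw [← hx]
          have := x.2.2
          nlinarith
        have := (Nat.cast_le (α := ℝ)).1 h2
        omega
      have : x = 1 := Subtype.ext (by rw [hxj, hjn]; simp [hn'.ne'])
      rw [this, G_one]

/-- Two elements of `G` which map `FF n` to the same set are in the same coset of `K n`. -/
lemma coset {n : ℕ} (hn : 0 < n) {u v : G} (h : (FF n).image u = (FF n).image v) :
    v⁻¹ * u ∈ K n := by
  refine mem_K_of_fix hn (fix_of_image ?_)
  have h1 : (FF n).image (v⁻¹ * u) = ((FF n).image u).image (⇑(v⁻¹ : G)) := by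
    rw [Finset.image_image]
    rfl
  rw [h1, h, Finset.image_image]
  have : (⇑(v⁻¹ : G) ∘ ⇑v : I → I) = id := by
    funext x
    simp
  rw [this, Finset.image_id]

/-- Finitary extreme amenability: finitely many bounded functions that are almost constant on the
left cosets of `K n` are simultaneously almost invariant at some point. -/
theorem exists_almost_invariant {κ : Type} [Finite κ] (f : κ → G → ℂ) (B : ℝ) (hB0 : 0 ≤ B)
    (hB : ∀ j h, ‖f j h‖ ≤ B) (ε : ℝ) (hε : 0 < ε) (n : ℕ) (hn : 0 < n)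
    (hf : ∀ j h, ∀ k ∈ K n, ‖f j (h * k) - f j h‖ ≤ ε) (S : Finset G) :
    ∃ h : G, ∀ j, ∀ g ∈ S, ‖f j (h * g) - f j h‖ ≤ 4 * ε := by
  classical
  set F := FF n with hF
  -- all the relevant points
  set P : Finset I := F ∪ S.biUnion (fun g => F.image g) with hP
  have hPpos : ∀ x ∈ P, 0 < x ∧ x < 1 := by
    intro x hx
    rw [hP, Finset.mem_union, Finset.mem_biUnion] at hx
    rcases hx with hx | ⟨g, -, hx⟩
    · exact ⟨FF_pos hx, FF_lt_one hx⟩
    · obtain ⟨y, hy, rfl⟩ := Finset.mem_image.1 hx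
      constructor
      · have := g.strictMono (FF_pos hy)
        rwa [G_zero] at this
      · have := g.strictMono (FF_lt_one hy)
        rwa [G_one] at this
  -- for every finite set of indices of the right size, an element mapping `F` there
  have hex : ∀ z : Finset ℕ, ∃ g : G, z.card = F.card → F.image g = z.image sq := by
    intro z
    by_cases hz : z.card = F.card
    · obtain ⟨g, hg⟩ := interpFin F.card (F.orderEmbOfFin rfl)
        (fun i => sq (z.orderEmbOfFin hz i)) (F.orderEmbOfFin rfl).strictMono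
        (fun i j hij => sq_strictMono ((z.orderEmbOfFin hz).strictMono hij))
        (fun i => FF_pos (Finset.orderEmbOfFin_mem F rfl i))
        (fun i => FF_lt_one (Finset.orderEmbOfFin_mem F rfl i))
        (fun i => sq_pos _) (fun i => sq_lt_one _)
      refine ⟨g, fun _ => ?_⟩
      ext x
      simp only [Finset.mem_image]
      constructor
      · rintro ⟨y, hy, rfl⟩
        have : y ∈ Set.range (F.orderEmbOfFin rfl) := by
          rw [Finset.range_orderEmbOfFin]; exact hy
        obtain ⟨i, rfl⟩ := this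
        exact ⟨_, Finset.orderEmbOfFin_mem z hz i, (hg i).symm⟩
      · rintro ⟨y, hy, rfl⟩
        have : y ∈ Set.range (z.orderEmbOfFin hz) := by
          rw [Finset.range_orderEmbOfFin]; exact hy
        obtain ⟨i, rfl⟩ := this
        exact ⟨_, Finset.orderEmbOfFin_mem F rfl i, hg i⟩
    · exact ⟨1, fun h => absurd h hz⟩
  choose hh hhz using hex
  -- discretisation
  obtain ⟨t, htf, ht⟩ := Metric.totallyBounded_iff.1
    (isCompact_closedBall (0 : ℂ) B).totallyBounded ε hε
  have htfin : Finite t := htf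
  have hne : t.Nonempty := by
    have h0 := ht (show (0 : ℂ) ∈ Metric.closedBall (0 : ℂ) B by simpa using hB0)
    rw [Set.mem_iUnion₂] at h0
    obtain ⟨y, hy, -⟩ := h0
    exact ⟨y, hy⟩
  have hdisc : ∀ w : ℂ, ∃ y : t, ‖w‖ ≤ B → ‖w - y‖ < ε := by
    intro w
    by_cases hw : ‖w‖ ≤ B
    · have h1 := ht (show w ∈ Metric.closedBall (0 : ℂ) B by simpa using hw)
      rw [Set.mem_iUnion₂] at h1
      obtain ⟨y, hy, hwy⟩ := h1
      exact ⟨⟨y, hy⟩, fun _ => by rw [← dist_eq_norm]; exact hwy⟩
    · obtain ⟨y, hy⟩ := hne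
      exact ⟨⟨y, hy⟩, fun h => absurd h hw⟩
  choose ρ hρ using hdisc
  -- Ramsey
  obtain ⟨T, -, hTinf, a, ha⟩ := ramsey F.card (fun z : Finset ℕ => fun j : κ => ρ (f j (hh z)))
    Set.univ Set.infinite_univ
  -- the element
  set m : ℕ → ℕ := Nat.nth (· ∈ T) with hm
  have hmmono : StrictMono m := Nat.nth_strictMono hTinf
  have hmT : ∀ i, m i ∈ T := fun i => Nat.nth_mem_of_infinite hTinf i
  obtain ⟨h, hh'⟩ := interpFin P.card (P.orderEmbOfFin rfl) (fun i => sq (m i))
    (P.orderEmbOfFin rfl).strictMono (fun i j hij => sq_strictMono (hmmono hij))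
    (fun i => (hPpos _ (Finset.orderEmbOfFin_mem P rfl i)).1)
    (fun i => (hPpos _ (Finset.orderEmbOfFin_mem P rfl i)).2)
    (fun i => sq_pos _) (fun i => sq_lt_one _)
  have hval : ∀ x ∈ P, ∃ i, i ∈ T ∧ h x = sq i := by
    intro x hx
    have : x ∈ Set.range (P.orderEmbOfFin rfl) := by
      rw [Finset.range_orderEmbOfFin]; exact hx
    obtain ⟨i, rfl⟩ := this
    exact ⟨m i, hmT i, hh' i⟩
  -- the values depend on the image of `F` only
  have key : ∀ u : G, (∀ x ∈ F, u x ∈ P) → ∀ j, ‖f j (h * u) - (a j : ℂ)‖ ≤ 2 * ε := by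
    intro u hu j
    set z : Finset ℕ := F.attach.image (fun x => Classical.choose (hval (u x.1) (hu x.1 x.2))) with hz
    have hzT : (z : Set ℕ) ⊆ T := by
      intro i hi
      rw [Finset.mem_coe, hz, Finset.mem_image] at hi
      obtain ⟨x, -, rfl⟩ := hi
      exact (Classical.choose_spec (hval (u x.1) (hu x.1 x.2))).1
    have hzsq : z.image sq = F.image (h * u) := by
      ext y
      simp only [hz, Finset.mem_image, Finset.mem_attach, true_and]
      constructor
      · rintro ⟨i, ⟨x, rfl⟩, rfl⟩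
        refine ⟨x.1, x.2, ?_⟩
        exact (Classical.choose_spec (hval (u x.1) (hu x.1 x.2))).2
      · rintro ⟨x, hx, rfl⟩
        refine ⟨_, ⟨⟨x, hx⟩, rfl⟩, ?_⟩
        exact (Classical.choose_spec (hval (u x) (hu x hx))).2.symm
    have hzcard : z.card = F.card := by
      have h1 : (z.image sq).card = z.card :=
        Finset.card_image_of_injective _ sq_strictMono.injective
      have h2 : (F.image (h * u)).card = F.card :=
        Finset.card_image_of_injective _ (h * u).injective
      rw [← h1, hzsq, h2]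
    have h1 : (FF n).image (h * u) = (FF n).image (hh z) := by
      rw [← hF, hhz z hzcard, hzsq]
    have h2 : (hh z)⁻¹ * (h * u) ∈ K n := coset hn h1
    have h3 := hf j (hh z) _ h2
    rw [mul_inv_cancel_left] at h3
    have h4 : ρ (f j (hh z)) = a j := by
      have := congrFun (ha z hzT hzcard) j
      exact this
    have h5 := hρ (f j (hh z)) (hB j _)
    rw [h4] at h5
    calc ‖f j (h * u) - (a j : ℂ)‖
        = ‖(f j (h * u) - f j (hh z)) + (f j (hh z) - (a j : ℂ))‖ := by ring_nf
      _ ≤ ‖f j (h * u) - f j (hh z)‖ + ‖f j (hh z) - (a j : ℂ)‖ := norm_add_le _ _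
      _ ≤ ε + ε := add_le_add h3 h5.le
      _ = 2 * ε := by ring
  refine ⟨h, fun j g hg => ?_⟩
  have k1 := key g (fun x hx => by
    rw [hP, Finset.mem_union, Finset.mem_biUnion]
    exact Or.inr ⟨g, hg, Finset.mem_image_of_mem _ hx⟩) j
  have k2 := key 1 (fun x hx => by
    rw [hP, Finset.mem_union]
    exact Or.inl hx) j
  rw [mul_one] at k2
  calc ‖f j (h * g) - f j h‖
      = ‖(f j (h * g) - (a j : ℂ)) - (f j h - (a j : ℂ))‖ := by ring_nf
    _ ≤ ‖f j (h * g) - (a j : ℂ)‖ + ‖f j h - (a j : ℂ)‖ := norm_sub_le _ _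
    _ ≤ 2 * ε + 2 * ε := add_le_add k1 k2
    _ = 4 * ε := by ring

end Pool.Agent.TH726.OT
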