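import Mathlib

/-!
# The group of the increasing homeomorphisms of the unit interval

The group `G` of the order automorphisms of `[0, 1]` with the topology of uniform convergence (of
the map and of its inverse) is a Polish group.
-/

set_option autoImplicit false

open Topology unitInterval

namespace Pool.Agent.TH726.OT

/-- the increasing homeomorphisms of the unit interval -/
abbrev G : Type := I ≃o I

/-- an element of `G` as a continuous map -/
def toC (g : G) : C(I, I) := ⟨g, g.continuous⟩

@[simp] lemma toC_apply (g : G) (x : I) : toC g x = g x := rfl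

/-- the embedding in the product of the spaces of continuous maps -/
def emb (g : G) : C(I, I) × C(I, I) := (toC g, toC g⁻¹)

instance instTop : TopologicalSpace G := TopologicalSpace.induced emb inferInstance

lemma emb_inj : Function.Injective emb := by
  intro g h hgh
  have h1 : toC g = toC h := congrArg Prod.fst hgh
  ext x
  have := DFunLike.congr_fun h1 x
  simp only [toC_apply] at this
  rw [this]

lemma isEmbedding_emb : IsEmbedding emb := ⟨⟨rfl⟩, emb_inj⟩

/-- the range of the embedding -/
def rg : Set (C(I, I) × C(I, I)) :=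
  {p | p.1.comp p.2 = ContinuousMap.id I ∧ p.2.comp p.1 = ContinuousMap.id I ∧ Monotone p.1}

lemma range_emb : Set.range emb = rg := by
  ext p
  constructor
  · rintro ⟨g, rfl⟩
    refine ⟨?_, ?_, ?_⟩
    · ext x
      simp [emb]
    · ext x
      simp [emb]
    · exact g.monotone
  · rintro ⟨h1, h2, h3⟩
    have e1 : ∀ x, p.1 (p.2 x) = x := fun x => DFunLike.congr_fun h1 x
    have e2 : ∀ x, p.2 (p.1 x) = x := fun x => DFunLike.congr_fun h2 x
    have hinj : Function.Injective p.1 := fun x y hxy => by rw [← e2 x, hxy, e2 y]
    have hs : StrictMono p.1 := h3.strictMono_of_injective hinj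
    let g : G :=
      { toFun := p.1
        invFun := p.2
        left_inv := e2
        right_inv := e1
        map_rel_iff' := by
          intro a b
          exact hs.le_iff_le }
    refine ⟨g, ?_⟩
    have a1 : toC g = p.1 := by ext x; rfl
    have a2 : toC g⁻¹ = p.2 := by ext x; rfl
    rw [emb, a1, a2]

lemma isClosed_rg : IsClosed rg := by
  have c1 : Continuous fun p : C(I, I) × C(I, I) => p.1.comp p.2 := by
    have := ContinuousMap.continuous_comp' (X := I) (Y := I) (Z := I)
    exact this.comp continuous_swap
  have c2 : Continuous fun p : C(I, I) × C(I, I) => p.2.comp p.1 :=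
    ContinuousMap.continuous_comp' (X := I) (Y := I) (Z := I)
  have h3 : IsClosed {p : C(I, I) × C(I, I) | Monotone p.1} := by
    have : {p : C(I, I) × C(I, I) | Monotone p.1} =
        ⋂ x : I, ⋂ y : I, ⋂ _ : x ≤ y, {p : C(I, I) × C(I, I) | p.1 x ≤ p.1 y} := by
      ext p
      simp only [Set.mem_ofPred_eq, Set.mem_iInter]
      rfl
    rw [this]
    refine isClosed_iInter fun x => isClosed_iInter fun y => isClosed_iInter fun _ => ?_
    have a1 : Continuous fun p : C(I, I) × C(I, I) => p.1 x :=
      (continuous_eval_const x).comp continuous_fst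
    have a2 : Continuous fun p : C(I, I) × C(I, I) => p.1 y :=
      (continuous_eval_const y).comp continuous_fst
    exact isClosed_le a1 a2
  have : rg = {p : C(I, I) × C(I, I) | p.1.comp p.2 = ContinuousMap.id I} ∩
      ({p : C(I, I) × C(I, I) | p.2.comp p.1 = ContinuousMap.id I} ∩
        {p : C(I, I) × C(I, I) | Monotone p.1}) := rfl
  rw [this]
  exact (isClosed_eq c1 continuous_const).inter ((isClosed_eq c2 continuous_const).inter h3)

instance instPolish : PolishSpace G := by
  have h : IsClosedEmbedding emb := ⟨isEmbedding_emb, by rw [range_emb]; exact isClosed_rg⟩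
  exact h.polishSpace

instance instGroupTop : IsTopologicalGroup G where
  continuous_mul := by
    rw [isEmbedding_emb.continuous_iff]
    have c0 : Continuous emb := isEmbedding_emb.continuous
    have c1 : Continuous fun p : G × G => (emb p.1).1.comp (emb p.2).1 := by
      have := ContinuousMap.continuous_comp' (X := I) (Y := I) (Z := I)
      exact this.comp ((continuous_fst.comp (c0.comp continuous_snd)).prodMk
        (continuous_fst.comp (c0.comp continuous_fst)))
    have c2 : Continuous fun p : G × G => (emb p.2).2.comp (emb p.1).2 := by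
      have := ContinuousMap.continuous_comp' (X := I) (Y := I) (Z := I)
      exact this.comp ((continuous_snd.comp (c0.comp continuous_fst)).prodMk
        (continuous_snd.comp (c0.comp continuous_snd)))
    have h : (emb ∘ fun p : G × G => p.1 * p.2) =
        fun p : G × G => ((emb p.1).1.comp (emb p.2).1, (emb p.2).2.comp (emb p.1).2) := by
      funext p
      refine Prod.ext ?_ ?_
      · ext x; rfl
      · ext x
        simp only [Function.comp, emb, mul_inv_rev]
        rfl
    rw [h]
    exact c1.prodMk c2
  continuous_inv := by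
    rw [isEmbedding_emb.continuous_iff]
    have c0 : Continuous emb := isEmbedding_emb.continuous
    have h : (emb ∘ fun p : G => p⁻¹) = fun p : G => ((emb p).2, (emb p).1) := by
      funext p
      refine Prod.ext ?_ ?_
      · rfl
      · simp only [Function.comp, emb, inv_inv]
    rw [h]
    exact (continuous_snd.comp c0).prodMk (continuous_fst.comp c0)

/-- small displacement implies being close to the identity -/
lemma nhds_one {U : Set G} (hU : U ∈ 𝓝 (1 : G)) :
    ∃ ε : ℝ, 0 < ε ∧ ∀ g : G, (∀ x : I, |(g x : ℝ) - x| ≤ ε) → g ∈ U := by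
  rw [isEmbedding_emb.nhds_eq_comap, Filter.mem_comap] at hU
  obtain ⟨V, hV, hVU⟩ := hU
  obtain ⟨ε, hε, hB⟩ := Metric.mem_nhds_iff.1 hV
  refine ⟨ε / 2, by positivity, fun g hg => hVU (hB ?_)⟩
  rw [Metric.mem_ball, Prod.dist_eq, max_lt_iff]
  have key : ∀ f : G, (∀ x : I, |(f x : ℝ) - x| ≤ ε / 2) → dist (toC f) (toC 1) < ε := by
    intro f hf
    have hle : dist (toC f) (toC 1) ≤ ε / 2 := by
      rw [ContinuousMap.dist_le (by positivity)]
      intro x
      rw [Subtype.dist_eq, Real.dist_eq]
      exact hf x
    linarith
  refine ⟨key g hg, ?_⟩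
  have h1 : (emb 1).2 = toC 1 := by
    simp [emb]
  rw [h1]
  refine key g⁻¹ fun x => ?_
  have := hg (g⁻¹ x)
  have e : g (g⁻¹ x) = x := by simp
  rw [e] at this
  rwa [abs_sub_comm]

/-- an element of `G` from a real function -/
lemma exists_of_real (f : ℝ → ℝ) (hc : ContinuousOn f (Set.Icc 0 1))
    (hm : StrictMonoOn f (Set.Icc 0 1)) (h0 : f 0 = 0) (h1 : f 1 = 1) :
    ∃ g : G, ∀ x : I, (g x : ℝ) = f x := by
  have hmem : ∀ x : I, f x ∈ Set.Icc (0 : ℝ) 1 := by
    intro x
    constructor
    · rw [← h0]
      exact hm.monotoneOn ⟨le_rfl, zero_le_one⟩ x.2 x.2.1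
    · rw [← h1]
      exact hm.monotoneOn x.2 ⟨zero_le_one, le_rfl⟩ x.2.2
  let F : I → I := fun x => ⟨f x, hmem x⟩
  have hF : StrictMono F := by
    intro x y hxy
    exact hm x.2 y.2 hxy
  have hs : Function.Surjective F := by
    intro y
    have hiv := intermediate_value_Icc (zero_le_one (α := ℝ)) hc
    rw [h0, h1] at hiv
    obtain ⟨x, hx, hxy⟩ := hiv y.2
    exact ⟨⟨x, hx⟩, Subtype.ext hxy⟩
  refine ⟨hF.orderIsoOfSurjective F hs, fun x => ?_⟩
  simp [F]

/-- piecewise linear interpolation -/
lemma interp (m : ℕ) (p s : ℕ → ℝ) (hp : ∀ i < m, p i < p (i + 1)) (hs : ∀ i < m, s i < s (i + 1))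
    (hp0 : p 0 = 0) (hs0 : s 0 = 0) (hp1 : p m = 1) (hs1 : s m = 1) :
    ∃ g : G, ∀ x : I, ∀ j ≤ m, (x : ℝ) = p j → (g x : ℝ) = s j := by
  set c : ℕ → ℝ := fun i => (s (i + 1) - s i) / (p (i + 1) - p i) with hc
  set f : ℝ → ℝ := fun x => ∑ i ∈ Finset.range m, c i * (min x (p (i + 1)) - min x (p i)) with hf
  have hcpos : ∀ i < m, 0 < c i := fun i hi =>
    div_pos (sub_pos.2 (hs i hi)) (sub_pos.2 (hp i hi))
  have hmono : ∀ i j, i ≤ j → j ≤ m → p i ≤ p j := by
    intro i j hij
    induction j, hij using Nat.le_induction with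
    | base => intro _; exact le_rfl
    | succ j hj ih => intro h; exact (ih (by omega)).trans (hp j (by omega)).le
  -- values at the nodes
  have hval : ∀ j ≤ m, f (p j) = s j := by
    intro j hj
    have h1 : ∀ i ∈ Finset.range m, c i * (min (p j) (p (i + 1)) - min (p j) (p i)) =
        if i < j then s (i + 1) - s i else 0 := by
      intro i hi
      have hi' := Finset.mem_range.1 hi
      split_ifs with hij
      · rw [min_eq_right (hmono (i + 1) j (by omega) hj), min_eq_right (hmono i j (by omega) hj)]
        have : p (i + 1) - p i ≠ 0 := (sub_pos.2 (hp i hi')).ne'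
        simp only [hc]
        field_simp
      · rw [min_eq_left (hmono j (i + 1) (by omega) (by omega)),
          min_eq_left (hmono j i (by omega) (by omega))]
        ring
    simp only [hf]
    rw [Finset.sum_congr rfl h1, ← Finset.sum_filter]
    have h2 : (Finset.range m).filter (fun i => i < j) = Finset.range j := by
      ext i
      simp only [Finset.mem_filter, Finset.mem_range]
      omega
    rw [h2, Finset.sum_range_sub, hs0, sub_zero]
  -- monotonicity
  have hclamp : ∀ a b x y : ℝ, a ≤ b → x ≤ y → min x b - min x a ≤ min y b - min y a := by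
    intro a b x y hab hxy
    rcases le_total x a with h | h
    · have e1 : min x b = x := min_eq_left (h.trans hab)
      have e2 : min x a = x := min_eq_left h
      rw [e1, e2, sub_self, sub_nonneg]
      exact min_le_min_left _ hab
    · have e2 : min x a = a := min_eq_right h
      have e3 : min y a = a := min_eq_right (h.trans hxy)
      rw [e2, e3]
      exact sub_le_sub_right (min_le_min_right _ hxy) _
  have hsm : StrictMonoOn f (Set.Icc 0 1) := by
    intro x hx y hy hxy
    have htel : ∀ z ∈ Set.Icc (0 : ℝ) 1,
        ∑ i ∈ Finset.range m, (min z (p (i + 1)) - min z (p i)) = z := by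
      intro z hz
      rw [Finset.sum_range_sub (fun i => min z (p i)), hp0, hp1, min_eq_left hz.2, min_eq_right hz.1,
        sub_zero]
    obtain ⟨i, hi, hlt⟩ : ∃ i ∈ Finset.range m,
        min x (p (i + 1)) - min x (p i) < min y (p (i + 1)) - min y (p i) := by
      by_contra hcon
      push Not at hcon
      have := Finset.sum_le_sum hcon
      rw [htel x hx, htel y hy] at this
      linarith
    refine Finset.sum_lt_sum (fun j hj => ?_) ⟨i, hi, ?_⟩
    · exact mul_le_mul_of_nonneg_left (hclamp _ _ _ _ (hp j (Finset.mem_range.1 hj)).le hxy.le)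
        (hcpos j (Finset.mem_range.1 hj)).le
    · exact mul_lt_mul_of_pos_left hlt (hcpos i (Finset.mem_range.1 hi))
  have hcont : Continuous f := by
    refine continuous_finsetSum _ fun i _ => ?_
    fun_prop
  have h0 : f 0 = 0 := by
    have := hval 0 (Nat.zero_le _)
    rwa [hp0, hs0] at this
  have h1 : f 1 = 1 := by
    have := hval m le_rfl
    rwa [hp1, hs1] at this
  obtain ⟨g, hg⟩ := exists_of_real f hcont.continuousOn hsm h0 h1
  refine ⟨g, fun x j hj hx => ?_⟩
  rw [hg, hx, hval j hj]

end Pool.Agent.TH726.OT
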