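import Pool.Agent.TH726.OT.Rep

/-!
# Invariant states for actions of `G` on C*-algebras
-/

set_option autoImplicit false

open Topology unitInterval Filter

namespace Pool.Agent.TH726.OT

variable {A : Type} [CStarAlgebra A]

/-- a state of a unital C*-algebra -/
structure IsSt (φ : A →ₗ[ℂ] ℂ) : Prop where
  star' : ∀ a, φ (star a) = star (φ a)
  pos' : ∀ a, 0 ≤ (φ (star a * a)).re
  norm' : ∀ a, ‖φ a‖ ≤ ‖a‖
  one' : φ 1 = 1

section action

variable (α : G → A ≃⋆ₐ[ℂ] A) (hmul : ∀ g h a, α (g * h) a = α g (α h a))
include hmul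

lemma act_one (a : A) : α 1 a = a := by
  have h := hmul 1 1 a
  rw [one_mul] at h
  exact ((α 1).injective h).symm

omit hmul in
lemma act_norm (g : G) (a : A) : ‖α g a‖ = ‖a‖ :=
  NonUnitalStarAlgHom.norm_map (α g) (α g).injective a

/-- The existence of an invariant state. -/
theorem exists_invariant (hcont : ∀ a, Continuous fun g => α g a) (φ₀ : A →ₗ[ℂ] ℂ)
    (h0 : IsSt φ₀) : ∃ ψ : A →ₗ[ℂ] ℂ, IsSt ψ ∧ ∀ g a, ψ (α g a) = ψ a := by
  classical
  -- almost invariance
  have key : ∀ i : Finset G × Finset A × ℕ, ∃ h : G, ∀ a ∈ i.2.1, ∀ g ∈ i.1,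
      ‖φ₀ (α (h * g) a) - φ₀ (α h a)‖ ≤ 1 / ((i.2.2 : ℝ) + 1) := by
    rintro ⟨S, T, m⟩
    set ε : ℝ := 1 / ((m : ℝ) + 1) / 4 with hε
    have hεpos : 0 < ε := by positivity
    -- the neighbourhood
    have hU : ∀ᶠ g in 𝓝 (1 : G), ∀ a ∈ T, ‖α g a - a‖ ≤ ε := by
      rw [Finset.eventually_all]
      intro a _
      have h1 : Tendsto (fun g => ‖α g a - a‖) (𝓝 1) (𝓝 ‖α 1 a - a‖) :=
        ((hcont a).sub continuous_const).norm.tendsto 1
      rw [act_one α hmul, sub_self, norm_zero] at h1
      exact (h1.eventually (Iio_mem_nhds hεpos)).mono fun g hg => hg.le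
    obtain ⟨ρ, hρ, hρU⟩ := nhds_one hU
    obtain ⟨n₀, hn₀⟩ := exists_nat_one_div_lt hρ
    have hnpos : 0 < n₀ + 1 := Nat.succ_pos _
    obtain ⟨B, hB⟩ : ∃ B : ℝ, ∀ a ∈ T, ‖a‖ ≤ B := by
      refine ⟨∑ a ∈ T, ‖a‖, fun a ha => ?_⟩
      exact Finset.single_le_sum (f := fun a => ‖a‖) (fun _ _ => norm_nonneg _) ha
    obtain ⟨h, hh⟩ := exists_almost_invariant (κ := T) (fun a h => φ₀ (α h a)) (max B 0)
      (le_max_right _ _)
      (fun a h => ((h0.norm' _).trans (act_norm α h a).le).trans ((hB a a.2).trans (le_max_left _ _)))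
      ε hεpos (n₀ + 1) hnpos (by
        intro a h k hk
        rw [← map_sub, hmul, ← map_sub]
        refine (h0.norm' _).trans ?_
        rw [act_norm]
        refine hρU k ?_ a a.2
        intro x
        refine (K_disp hnpos hk x).trans ?_
        push_cast
        exact hn₀.le) S
    refine ⟨h, fun a ha g hg => ?_⟩
    have := hh ⟨a, ha⟩ g hg
    rw [hε] at this
    refine this.trans (le_of_eq ?_)
    show 4 * (1 / ((m : ℝ) + 1) / 4) = 1 / ((m : ℝ) + 1)
    ring
  choose h hh using key
  let V : Ultrafilter (Finset G × Finset A × ℕ) := Ultrafilter.of atTop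
  have hV : (V : Filter (Finset G × Finset A × ℕ)) ≤ atTop := Ultrafilter.of_le _
  have hlim : ∀ a : A, ∃ z : ℂ, Tendsto (fun i => φ₀ (α (h i) a)) V (𝓝 z) := by
    intro a
    have hc : IsCompact (Metric.closedBall (0 : ℂ) ‖a‖) := isCompact_closedBall _ _
    obtain ⟨z, _, hz⟩ := hc.ultrafilter_le_nhds (V.map fun i => φ₀ (α (h i) a)) (by
      rw [le_principal_iff, Ultrafilter.coe_map, mem_map]
      refine Filter.Eventually.of_forall fun i => ?_
      show φ₀ (α (h i) a) ∈ Metric.closedBall (0 : ℂ) ‖a‖
      rw [Metric.mem_closedBall, dist_zero_right]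
      exact (h0.norm' _).trans (act_norm α _ a).le)
    exact ⟨z, hz⟩
  choose ψ hψ using hlim
  have hadd : ∀ a b, ψ (a + b) = ψ a + ψ b := by
    intro a b
    refine tendsto_nhds_unique (hψ (a + b)) ?_
    have := (hψ a).add (hψ b)
    refine this.congr fun i => ?_
    rw [map_add, map_add]
  have hsmul : ∀ (c : ℂ) a, ψ (c • a) = c • ψ a := by
    intro c a
    refine tendsto_nhds_unique (hψ (c • a)) ?_
    have := (hψ a).const_smul c
    refine this.congr fun i => ?_
    rw [map_smul, map_smul]
  refine ⟨{ toFun := ψ, map_add' := hadd, map_smul' := hsmul }, ⟨?_, ?_, ?_, ?_⟩, ?_⟩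
  · intro a
    show ψ (star a) = star (ψ a)
    refine tendsto_nhds_unique (hψ (star a)) ?_
    have := (hψ a).star
    refine this.congr fun i => ?_
    rw [map_star, h0.star']
  · intro a
    show 0 ≤ (ψ (star a * a)).re
    have := (Complex.continuous_re.tendsto _).comp (hψ (star a * a))
    refine ge_of_tendsto' this fun i => ?_
    simp only [Function.comp, map_mul, map_star]
    exact h0.pos' _
  · intro a
    show ‖ψ a‖ ≤ ‖a‖
    refine le_of_tendsto' (hψ a).norm fun i => ?_
    exact (h0.norm' _).trans (act_norm α _ a).le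
  · show ψ 1 = 1
    refine tendsto_nhds_unique (hψ 1) ?_
    refine tendsto_const_nhds.congr fun i => ?_
    rw [map_one, h0.one']
  · intro g a
    show ψ (α g a) = ψ a
    have h1 : Tendsto (fun i : Finset G × Finset A × ℕ =>
        φ₀ (α (h i) (α g a)) - φ₀ (α (h i) a)) V (𝓝 0) := by
      rw [tendsto_zero_iff_norm_tendsto_zero]
      have h2 : Tendsto (fun i : Finset G × Finset A × ℕ => 1 / ((i.2.2 : ℝ) + 1)) V (𝓝 0) := by
        have h3 : Tendsto (fun i : Finset G × Finset A × ℕ => i.2.2) atTop atTop := by
          rw [tendsto_atTop]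
          intro n
          filter_upwards [eventually_ge_atTop ((∅, ∅, n) : Finset G × Finset A × ℕ)] with i hi
          exact hi.2.2
        exact (tendsto_one_div_add_atTop_nhds_zero_nat.comp h3).mono_left hV
      refine squeeze_zero' (Eventually.of_forall fun _ => norm_nonneg _) ?_ h2
      refine Filter.Eventually.filter_mono hV ?_
      filter_upwards [eventually_ge_atTop (({g}, {a}, 0) : Finset G × Finset A × ℕ)] with i hi
      have := hh i a (hi.2.1 (Finset.mem_singleton_self a)) g (hi.1 (Finset.mem_singleton_self g))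
      rwa [hmul] at this
    have h4 := (hψ (α g a)).sub (hψ a)
    exact sub_eq_zero.1 (tendsto_nhds_unique h4 h1)

end action

section gns

/-- the GNS space of a state -/
@[nolint unusedArguments]
def PG (_φ : A →ₗ[ℂ] ℂ) : Type := A

variable (φ : A →ₗ[ℂ] ℂ) 

instance : AddCommGroup (PG φ) := inferInstanceAs (AddCommGroup A)
instance : Module ℂ (PG φ) := inferInstanceAs (Module ℂ A)

/-- the semi-inner product of a state -/
@[instance_reducible]
noncomputable def pgCore (hφ : IsSt φ) : PreInnerProductSpace.Core ℂ (PG φ) where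
  inner a b := φ (star (show A from a) * (show A from b))
  conj_inner_symm x y := by
    show star (φ (star (show A from y) * (show A from x))) =
      φ (star (show A from x) * (show A from y))
    rw [← hφ.star', star_mul, star_star]
  re_inner_nonneg x := hφ.pos' (show A from x)
  add_left x y z := by
    show φ (star ((show A from x) + (show A from y)) * (show A from z)) =
      φ (star (show A from x) * (show A from z)) + φ (star (show A from y) * (show A from z))
    rw [star_add, add_mul, map_add]
  smul_left x y r := by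
    show φ (star (r • (show A from x)) * (show A from y)) =
      star r * φ (star (show A from x) * (show A from y))
    rw [star_smul, smul_mul_assoc, map_smul, smul_eq_mul]

/-- An invariant state sees no action. -/
theorem invariant_trivial (hφ : IsSt φ) (α : G → A ≃⋆ₐ[ℂ] A)
    (hmul : ∀ g h a, α (g * h) a = α g (α h a)) (hcont : ∀ a, Continuous fun g => α g a)
    (hinv : ∀ g a, φ (α g a) = φ a) (g : G) (a x : A) :
    φ (star x * star (α g a - a) * (α g a - a) * x) = 0 := by
  let iN : SeminormedAddCommGroup (PG φ) :=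
    InnerProductSpace.Core.toSeminormedAddCommGroup (c := pgCore φ hφ)
  let iI : InnerProductSpace ℂ (PG φ) := InnerProductSpace.ofCore (pgCore φ hφ)
  have hinner : ∀ u v : PG φ, inner ℂ u v = φ (star (show A from u) * (show A from v)) :=
    fun u v => rfl
  have hnorm : ∀ u : PG φ, ‖u‖ = √ (φ (star (show A from u) * (show A from u))).re :=
    fun u => rfl
  have hnle : ∀ u : PG φ, ‖u‖ ≤ ‖(show A from u)‖ := by
    intro u
    rw [hnorm]
    refine Real.sqrt_le_iff.2 ⟨norm_nonneg _, ?_⟩
    refine (Complex.re_le_norm _).trans ((hφ.norm' _).trans ?_)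
    rw [CStarRing.norm_star_mul_self]
    exact (pow_two _).symm.le
  let U : G → PG φ →ₗ[ℂ] PG φ := fun g =>
    { toFun := fun v => α g (show A from v)
      map_add' := fun v w => map_add (α g) (show A from v) (show A from w)
      map_smul' := fun c v => map_smul (α g) c (show A from v) }
  have hU : ∀ g (v : PG φ), U g v = α g (show A from v) := fun g v => rfl
  have htriv : ∀ g (v : PG φ), ‖U g v - v‖ = 0 := by
    refine action_trivial U ?_ ?_ ?_ ?_
    · intro g h v
      exact hmul g h _
    · intro g v
      rw [hnorm, hnorm, hU]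
      congr 2
      have := hinv g (star (show A from v) * (show A from v))
      rw [map_mul, map_star] at this
      exact this
    · intro v
      exact act_one α hmul _
    · intro v ε hε
      have h1 : Tendsto (fun g => ‖α g (show A from v) - (show A from v)‖) (𝓝 1)
          (𝓝 ‖α 1 (show A from v) - (show A from v)‖) :=
        ((hcont _).sub continuous_const).norm.tendsto 1
      rw [act_one α hmul, sub_self, norm_zero] at h1
      refine (h1.eventually (Iio_mem_nhds hε)).mono fun g hg => ?_
      exact (hnle (U g v - v)).trans (le_of_lt hg)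
  -- the null space
  have hnull : ∀ g (b : A), φ (star (α g b - b) * (α g b - b)) = 0 := by
    intro g b
    have h1 := htriv g (show PG φ from b)
    have h2 : inner ℂ (U g (show PG φ from b) - (show PG φ from b))
        (U g (show PG φ from b) - (show PG φ from b)) = (0 : ℂ) := by
      rw [inner_self_eq_norm_sq_to_K, h1]
      simp
    exact h2
  -- Cauchy-Schwarz
  have hCS : ∀ u v : A, φ (star u * u) = 0 → φ (star v * u) = 0 := by
    intro u v huv
    have h1 : ‖(show PG φ from u)‖ = 0 := by
      rw [hnorm]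
      show √ (φ (star u * u)).re = 0
      rw [huv]
      simp
    have h2 := norm_inner_le_norm (𝕜 := ℂ) (show PG φ from v) (show PG φ from u)
    rw [h1, mul_zero] at h2
    exact norm_le_zero_iff.1 h2
  have hleft : ∀ u c : A, φ (star u * u) = 0 → φ (star (c * u) * (c * u)) = 0 := by
    intro u c hu
    have := hCS u (star c * (c * u)) hu
    rw [star_mul, star_star] at this
    rw [← this]
    simp only [mul_assoc, star_mul]
  have hadd : ∀ u v : A, φ (star u * u) = 0 → φ (star v * v) = 0 →
      φ (star (u - v) * (u - v)) = 0 := by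
    intro u v hu hv
    have h1 := hCS u v hu
    have h2 := hCS v u hv
    rw [star_sub, sub_mul, mul_sub, mul_sub, map_sub, map_sub, map_sub, hu, hv, h1, h2]
    simp
  -- the conclusion
  have e : (α g a - a) * x = (α g (a * x) - a * x) - α g a * (α g x - x) := by
    rw [map_mul, mul_sub, sub_mul]
    abel
  have h1 := hadd _ _ (hnull g (a * x)) (hleft _ (α g a) (hnull g x))
  rw [← e] at h1
  rw [← h1]
  simp only [mul_assoc, star_mul]

end gns

end Pool.Agent.TH726.OT
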