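import Pool.Agent.TH726.OT.Dyn

/-!
# The increasing homeomorphisms of the unit interval have no unitary representations

A continuous isometric linear action of `G` on a space with a semi-inner product is trivial
(up to vectors of norm zero).
-/

set_option autoImplicit false

open Topology unitInterval

namespace Pool.Agent.TH726.OT

/-- moving the points `j / n` slightly to the right -/
def QQ (n : ℕ) : Set G :=
  {g | ∀ i : ℕ, 0 < i → i < n → (i : ℝ) / n < g (pt n i) ∧ (g (pt n i) : ℝ) < ((i : ℝ) + 1) / n}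

/-- `QQ n` lies in one double coset of `K n` -/
lemma double_coset {n : ℕ} (hn : 0 < n) {g g₀ : G} (hg : g ∈ QQ n) (hg₀ : g₀ ∈ QQ n) :
    ∃ k₁ ∈ K n, ∃ k₂ ∈ K n, g = k₁ * g₀ * k₂ := by
  have hn' : (0 : ℝ) < n := by exact_mod_cast hn
  let node : G → ℕ → ℝ := fun u j =>
    if j % 2 = 0 then (u (pt n (j / 2)) : ℝ) else (((j / 2 : ℕ) : ℝ) + 1) / n
  have pt0 : pt n 0 = 0 := Subtype.ext (by rw [coe_pt (Nat.zero_le _)]; simp)
  have h0 : ∀ u : G, node u 0 = 0 := by
    intro u
    simp [node, pt0, G_zero]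
  have h1 : ∀ u : G, node u (2 * n - 1) = 1 := by
    intro u
    simp only [node]
    rw [if_neg (by omega)]
    have : (2 * n - 1) / 2 = n - 1 := by omega
    rw [this]
    have : ((n - 1 : ℕ) : ℝ) + 1 = n := by
      rw [Nat.cast_sub hn]
      simp
    rw [this]
    exact div_self hn'.ne'
  have hinc : ∀ u ∈ QQ n, ∀ j < 2 * n - 1, node u j < node u (j + 1) := by
    intro u hu j hj
    simp only [node]
    rcases Nat.mod_two_eq_zero_or_one j with hj2 | hj2
    · rw [if_pos hj2, if_neg (by omega)]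
      have e : (j + 1) / 2 = j / 2 := by omega
      rw [e]
      rcases Nat.eq_zero_or_pos (j / 2) with hz | hz
      · rw [hz, pt0, G_zero]
        simp only [Set.Icc.coe_zero, Nat.cast_zero, zero_add]
        positivity
      · exact (hu (j / 2) hz (by omega)).2
    · rw [if_neg (by omega), if_pos (by omega)]
      have e : (j + 1) / 2 = j / 2 + 1 := by omega
      rw [e]
      have := (hu (j / 2 + 1) (by omega) (by omega)).1
      push_cast at this
      exact this
  obtain ⟨k, hk⟩ := interp (2 * n - 1) (node g₀) (node g) (hinc g₀ hg₀) (hinc g hg) (h0 g₀) (h0 g)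
    (h1 g₀) (h1 g)
  have hkK : k ∈ K n := by
    refine mem_K_of_fix hn fun x hx => ?_
    obtain ⟨j, hj0, hjn, hxj⟩ := mem_FF.1 hx
    have hnode : ∀ u : G, node u (2 * j - 1) = x := by
      intro u
      simp only [node]
      rw [if_neg (by omega), hxj]
      have : (2 * j - 1) / 2 = j - 1 := by omega
      rw [this]
      have : ((j - 1 : ℕ) : ℝ) + 1 = j := by
        rw [Nat.cast_sub hj0]
        simp
      rw [this]
    have := hk x (2 * j - 1) (by omega) (hnode g₀).symm
    rw [hnode] at this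
    exact Subtype.ext this
  have hkg : ∀ x ∈ FF n, k (g₀ x) = g x := by
    intro x hx
    obtain ⟨j, hj0, hjn, hxj⟩ := mem_FF.1 hx
    have hxp : x = pt n j := Subtype.ext (by rw [coe_pt hjn.le, hxj])
    have hnode : ∀ u : G, node u (2 * j) = u x := by
      intro u
      simp only [node]
      rw [if_pos (by omega), hxp]
      have : (2 * j) / 2 = j := by omega
      rw [this]
    have := hk (g₀ x) (2 * j) (by omega) (hnode g₀).symm
    rw [hnode] at this
    exact Subtype.ext this
  refine ⟨k, hkK, (k * g₀)⁻¹ * g, mem_K_of_fix hn fun x hx => ?_, by group⟩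
  show (k * g₀)⁻¹ (g x) = x
  rw [← hkg x hx]
  show (k * g₀)⁻¹ ((k * g₀) x) = x
  simp

/-- small elements of `QQ n` -/
lemma exists_small {n : ℕ} (hn : 0 < n) (ε : ℝ) (hε : 0 < ε) :
    ∃ g ∈ QQ n, ∀ x : I, |(g x : ℝ) - x| ≤ ε := by
  have hn' : (0 : ℝ) < n := by exact_mod_cast hn
  set τ : ℝ := min (min ε (1 / 2)) (1 / n) with hτ
  have hτ0 : 0 < τ := by
    rw [hτ]
    exact lt_min (lt_min hε (by norm_num)) (by positivity)
  have hτε : τ ≤ ε := (min_le_left _ _).trans (min_le_left _ _)
  have hτ1 : τ ≤ 1 / 2 := (min_le_left _ _).trans (min_le_right _ _)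
  have hτn : τ ≤ 1 / n := min_le_right _ _
  obtain ⟨g, hg⟩ := exists_of_real (fun x => x + τ * (x * (1 - x))) (by fun_prop) (by
    intro x hx y hy hxy
    have h1 : 0 < (y - x) * (1 + τ * (1 - x - y)) := by
      refine mul_pos (sub_pos.2 hxy) ?_
      nlinarith [hx.1, hx.2, hy.1, hy.2]
    show x + τ * (x * (1 - x)) < y + τ * (y * (1 - y))
    nlinarith) (by simp) (by simp)
  have hdisp : ∀ x : I, (g x : ℝ) - x = τ * (x * (1 - x)) := by
    intro x
    rw [hg]
    ring
  have hq : ∀ x : I, (x : ℝ) * (1 - x) ≤ 1 / 4 := by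
    intro x
    nlinarith [sq_nonneg ((x : ℝ) - 1 / 2)]
  have hq0 : ∀ x : I, 0 ≤ (x : ℝ) * (1 - x) := fun x => mul_nonneg x.2.1 (sub_nonneg.2 x.2.2)
  refine ⟨g, fun i hi0 hin => ?_, fun x => ?_⟩
  · have hi : (0 : ℝ) < i := by exact_mod_cast hi0
    have hin' : (i : ℝ) < n := by exact_mod_cast hin
    have h1 := hdisp (pt n i)
    have h2 : (pt n i : ℝ) = i / n := coe_pt hin.le
    have h3 := hq (pt n i)
    have h4 : 0 < (pt n i : ℝ) * (1 - pt n i) := by
      rw [h2]
      refine mul_pos (by positivity) ?_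
      rw [sub_pos, div_lt_one hn']
      exact hin'
    have h5 : 0 < τ * ((pt n i : ℝ) * (1 - pt n i)) := mul_pos hτ0 h4
    have h6 : τ * ((pt n i : ℝ) * (1 - pt n i)) ≤ τ * (1 / 4) := mul_le_mul_of_nonneg_left h3 hτ0.le
    rw [← h2]
    constructor
    · linarith
    · have : ((i : ℝ) + 1) / n = (pt n i : ℝ) + 1 / n := by
        rw [h2]
        ring
      rw [this]
      linarith
  · rw [hdisp, abs_of_nonneg (mul_nonneg hτ0.le (hq0 x))]
    have := mul_le_mul_of_nonneg_left (hq x) hτ0.le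
    linarith

/-- an element mapping the points `j / n` to the middle of the next interval -/
lemma exists_mid {n : ℕ} (hn : 0 < n) :
    ∃ g : G, ∀ i : ℕ, 0 < i → i < n → (g (pt n i) : ℝ) = ((i : ℝ) + 1 / 2) / n := by
  have hn' : (0 : ℝ) < n := by exact_mod_cast hn
  obtain ⟨g, hg⟩ := interp n (fun j => (j : ℝ) / n)
    (fun j => if j = 0 then 0 else if j < n then ((j : ℝ) + 1 / 2) / n else 1)
    (fun i hi => by
      have : (i : ℝ) < (i + 1 : ℕ) := by push_cast; linarith
      exact div_lt_div_of_pos_right this hn')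
    (fun i hi => by
      show (if i = 0 then (0 : ℝ) else if i < n then ((i : ℝ) + 1 / 2) / n else 1) <
        if i + 1 = 0 then 0 else if i + 1 < n then (((i + 1 : ℕ) : ℝ) + 1 / 2) / n else 1
      rw [if_neg (Nat.succ_ne_zero i)]
      rcases Nat.eq_zero_or_pos i with h | h
      · rw [if_pos h]
        split_ifs
        · positivity
        · exact zero_lt_one
      · rw [if_neg h.ne', if_pos hi]
        split_ifs with h2
        · push_cast
          gcongr
          linarith
        · rw [div_lt_one hn']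
          have : (i : ℝ) + 1 ≤ n := by exact_mod_cast hi
          linarith)
    (by simp) (by simp) (div_self hn'.ne') (by simp [hn.ne'])
  refine ⟨g, fun i hi0 hin => ?_⟩
  have := hg (pt n i) i hin.le (coe_pt hin.le)
  rw [this]
  simp [hi0.ne', hin]

/-- every element is a product of elements with small displacement -/
lemma chain (g : G) (N : ℕ) (hN : 0 < N) :
    ∃ u : ℕ → G, u 0 = 1 ∧ u N = g ∧ ∀ j < N, ∀ x : I, |((u (j + 1) * (u j)⁻¹) x : ℝ) - x| ≤ 1 / N := by
  have hN' : (0 : ℝ) < N := by exact_mod_cast hN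
  let gt : ℝ → ℝ := fun x => g (Set.projIcc 0 1 zero_le_one x)
  have hgt : ∀ x : I, gt x = g x := fun x => by simp [gt]
  have hgtc : Continuous gt := by
    exact continuous_subtype_val.comp (g.continuous.comp continuous_projIcc)
  have hgtm : StrictMonoOn gt (Set.Icc 0 1) := by
    intro x hx y hy hxy
    have e1 := hgt ⟨x, hx⟩
    have e2 := hgt ⟨y, hy⟩
    simp only at e1 e2
    rw [e1, e2]
    exact g.strictMono hxy
  have hgt0 : gt 0 = 0 := by
    have := hgt 0
    simp only [Set.Icc.coe_zero] at this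
    rw [this, G_zero]
    simp
  have hgt1 : gt 1 = 1 := by
    have := hgt 1
    simp only [Set.Icc.coe_one] at this
    rw [this, G_one]
    simp
  have hex : ∀ j : ℕ, ∃ u : G, j ≤ N → ∀ x : I,
      (u x : ℝ) = (1 - (j : ℝ) / N) * x + (j : ℝ) / N * g x := by
    intro j
    by_cases hj : j ≤ N
    · have hs0 : 0 ≤ (j : ℝ) / N := by positivity
      have hs1 : (j : ℝ) / N ≤ 1 := by
        rw [div_le_one hN']
        exact_mod_cast hj
      obtain ⟨u, hu⟩ := exists_of_real (fun x => (1 - (j : ℝ) / N) * x + (j : ℝ) / N * gt x)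
        (by fun_prop) (by
          intro x hx y hy hxy
          have h1 := hgtm hx hy hxy
          show (1 - (j : ℝ) / N) * x + (j : ℝ) / N * gt x < (1 - (j : ℝ) / N) * y + (j : ℝ) / N * gt y
          rcases hs0.lt_or_eq with h | h
          · have h2 := mul_lt_mul_of_pos_left h1 h
            have h3 := mul_le_mul_of_nonneg_left hxy.le (sub_nonneg.2 hs1)
            linarith
          · rw [← h]
            linarith) (by rw [hgt0]; ring) (by rw [hgt1]; ring)
      refine ⟨u, fun _ x => ?_⟩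
      rw [hu, hgt]
    · exact ⟨1, fun h => absurd h hj⟩
  choose u hu using hex
  refine ⟨u, ?_, ?_, ?_⟩
  · ext x
    rw [hu 0 (Nat.zero_le _)]
    simp
  · ext x
    rw [hu N le_rfl, div_self hN'.ne']
    simp
  · intro j hj x
    set y := (u j)⁻¹ x with hy
    have hx : x = u j y := by simp [hy]
    have e : ((u (j + 1) * (u j)⁻¹) x : ℝ) = u (j + 1) y := rfl
    rw [e, hx, hu (j + 1) (by omega), hu j (by omega)]
    push_cast
    have h1 : (1 - ((j : ℝ) + 1) / N) * y + ((j : ℝ) + 1) / N * g y -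
        ((1 - (j : ℝ) / N) * y + (j : ℝ) / N * g y) = ((g y : ℝ) - y) / N := by
      field_simp
      ring
    rw [h1, abs_div, abs_of_pos hN']
    refine div_le_div_of_nonneg_right ?_ hN'.le
    rw [abs_le]
    constructor
    · linarith [(g y).2.1, y.2.2]
    · linarith [(g y).2.2, y.2.1]

variable {E : Type} [SeminormedAddCommGroup E] [InnerProductSpace ℂ E]

/-- A continuous isometric linear action of `G` on a space with a semi-inner product is trivial. -/
theorem action_trivial (U : G → E →ₗ[ℂ] E) (hmul : ∀ g h v, U (g * h) v = U g (U h v))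
    (hiso : ∀ g v, ‖U g v‖ = ‖v‖) (hone : ∀ v, U 1 v = v)
    (hcont : ∀ v, ∀ ε > 0, ∀ᶠ g in 𝓝 (1 : G), ‖U g v - v‖ ≤ ε) (g : G) (v : E) :
    ‖U g v - v‖ = 0 := by
  refine le_antisymm (le_of_forall_pos_le_add fun ε hε => ?_) (norm_nonneg _)
  rw [zero_add]
  -- the partition
  obtain ⟨ρ, hρ, hρU⟩ := nhds_one (hcont v (ε / 4) (by positivity))
  obtain ⟨n₀, hn₀⟩ := exists_nat_one_div_lt hρ
  set n := n₀ + 1 with hn
  have hnpos : 0 < n := Nat.succ_pos _
  have hn' : (0 : ℝ) < n := by exact_mod_cast hnpos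
  have hK : ∀ k ∈ K n, ‖U k v - v‖ ≤ ε / 4 := by
    intro k hk
    refine hρU k fun x => (K_disp hnpos hk x).trans ?_
    rw [hn]
    push_cast
    exact hn₀.le
  set N := 2 * n + 1 with hN
  have hNpos : 0 < N := Nat.succ_pos _
  have hN' : (0 : ℝ) < N := by exact_mod_cast hNpos
  set r : ℝ := ε / (4 * N) with hr
  have hr0 : 0 < r := by positivity
  -- the convex hull of the orbit
  set C : Set E := convexHull ℝ ((fun k => U k v) '' (K n)) with hC
  have hvC : v ∈ C := subset_convexHull ℝ _ ⟨1, K_one, hone v⟩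
  have hCball : ∀ w ∈ C, ‖w - v‖ ≤ ε / 4 := by
    intro w hw
    have h1 : C ⊆ Metric.closedBall v (ε / 4) := by
      refine convexHull_min ?_ (convex_closedBall _ _)
      rintro _ ⟨k, hk, rfl⟩
      rw [Metric.mem_closedBall, dist_eq_norm]
      exact hK k hk
    have := h1 hw
    rwa [Metric.mem_closedBall, dist_eq_norm] at this
  have hCinv : ∀ k ∈ K n, ∀ w ∈ C, U k w ∈ C := by
    intro k hk w hw
    have h1 : C ⊆ (U k) ⁻¹' C := by
      refine convexHull_min ?_ ?_
      · rintro _ ⟨l, hl, rfl⟩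
        refine subset_convexHull ℝ _ ⟨k * l, K_mul hk hl, ?_⟩
        exact hmul k l v
      · exact (convex_convexHull ℝ _).linear_preimage ((U k).restrictScalars ℝ)
    exact h1 hw
  -- an almost minimal element
  set S : Set ℝ := (fun w => ‖w‖ ^ 2) '' C with hS
  have hSb : BddBelow S := ⟨0, by rintro _ ⟨w, _, rfl⟩; positivity⟩
  have hSne : S.Nonempty := ⟨_, v, hvC, rfl⟩
  obtain ⟨_, ⟨w, hw, rfl⟩, hwm⟩ := exists_lt_of_csInf_lt hSne
    (show sInf S < sInf S + (r / 8) ^ 2 by linarith [show 0 < (r / 8) ^ 2 by positivity])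
  have hwK : ∀ k ∈ K n, ‖U k w - w‖ ≤ r / 4 := by
    intro k hk
    have h1 : (2⁻¹ : ℝ) • (U k w + w) ∈ C := by
      have := (convex_convexHull ℝ ((fun k => U k v) '' (K n))) (hCinv k hk w hw) hw
        (show (0 : ℝ) ≤ 2⁻¹ by norm_num) (show (0 : ℝ) ≤ 2⁻¹ by norm_num) (by norm_num)
      rw [← smul_add] at this
      exact this
    have h2 : sInf S ≤ ‖(2⁻¹ : ℝ) • (U k w + w)‖ ^ 2 := csInf_le hSb ⟨_, h1, rfl⟩
    rw [norm_smul, Real.norm_eq_abs, abs_of_pos (by norm_num : (0 : ℝ) < 2⁻¹), mul_pow] at h2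
    have h3 := parallelogram_law_with_norm ℂ (U k w) w
    rw [hiso] at h3
    have h4 : ‖U k w - w‖ ^ 2 ≤ (r / 4) ^ 2 := by
      have h5 : ‖w‖ ^ 2 < sInf S + (r / 8) ^ 2 := hwm
      nlinarith
    exact abs_le_of_sq_le_sq' h4 (by positivity) |>.2
  -- elements of `QQ n` almost fix `w`
  have hQ : ∀ g ∈ QQ n, ‖U g w - w‖ ≤ r := by
    intro g hg
    obtain ⟨ρ', hρ', hρU'⟩ := nhds_one (hcont w (r / 2) (by positivity))
    obtain ⟨g₀, hg₀, hg₀'⟩ := exists_small hnpos ρ' hρ'
    have h0 : ‖U g₀ w - w‖ ≤ r / 2 := hρU' g₀ hg₀'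
    obtain ⟨k₁, hk₁, k₂, hk₂, rfl⟩ := double_coset hnpos hg hg₀
    have e : U (k₁ * g₀ * k₂) w - w =
        U (k₁ * g₀) (U k₂ w - w) + (U k₁ (U g₀ w - w) + (U k₁ w - w)) := by
      rw [hmul (k₁ * g₀) k₂, map_sub, map_sub, hmul k₁ g₀ w]
      abel
    rw [e]
    refine (norm_add_le _ _).trans ?_
    refine (add_le_add_right (norm_add_le _ _) _).trans ?_
    rw [hiso, hiso]
    linarith [hwK k₁ hk₁, hwK k₂ hk₂]
  -- elements with small displacement almost fix `w`
  have hsmall : ∀ h : G, (∀ x : I, |(h x : ℝ) - x| ≤ 1 / N) → ‖U h w - w‖ ≤ 2 * r := by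
    intro h hh
    have hNn : (1 : ℝ) / N < 1 / 2 / n := by
      rw [hN]
      push_cast
      rw [div_div, one_div_lt_one_div (by positivity) (by positivity)]
      linarith
    obtain ⟨g₁, hg₁⟩ := exists_mid hnpos
    have hg₁Q : g₁ ∈ QQ n := by
      intro i hi0 hin
      rw [hg₁ i hi0 hin]
      constructor
      · gcongr
        linarith
      · gcongr
        linarith
    have hhg₁Q : h * g₁ ∈ QQ n := by
      intro i hi0 hin
      have h1 : ((h * g₁) (pt n i) : ℝ) = h (g₁ (pt n i)) := rfl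
      have h2 := abs_le.1 (hh (g₁ (pt n i)))
      rw [h1]
      rw [hg₁ i hi0 hin] at h2
      have e1 : ((i : ℝ) + 1 / 2) / n = (i : ℝ) / n + 1 / 2 / n := by ring
      have e2 : ((i : ℝ) + 1) / n = (i : ℝ) / n + 1 / 2 / n + 1 / 2 / n := by ring
      rw [e1] at h2
      rw [e2]
      constructor
      · linarith [h2.1]
      · linarith [h2.2]
    have e : U h w - w = (U (h * g₁) w - w) - U h (U g₁ w - w) := by
      rw [hmul, map_sub]
      abel
    rw [e]
    refine (norm_sub_le _ _).trans ?_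
    rw [hiso]
    linarith [hQ g₁ hg₁Q, hQ _ hhg₁Q]
  -- all the elements
  obtain ⟨u, hu0, huN, hu⟩ := chain g N hNpos
  have hall : ∀ j ≤ N, ‖U (u j) w - w‖ ≤ j * (2 * r) := by
    intro j
    induction j with
    | zero =>
      intro _
      rw [hu0, hone]
      simp
    | succ j ih =>
      intro hj
      have e : U (u (j + 1)) w - w =
          U (u (j + 1) * (u j)⁻¹) (U (u j) w - w) + (U (u (j + 1) * (u j)⁻¹) w - w) := by
        rw [map_sub, ← hmul]
        rw [inv_mul_cancel_right]
        abel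
      rw [e]
      refine (norm_add_le _ _).trans ?_
      rw [hiso]
      have := hsmall _ (hu j (by omega))
      push_cast
      linarith [ih (by omega)]
  have hgw : ‖U g w - w‖ ≤ ε / 2 := by
    have := hall N le_rfl
    rw [huN] at this
    refine this.trans ?_
    rw [hr]
    field_simp
    norm_num
  have e : U g v - v = (U g w - w) + (w - v) - U g (w - v) := by
    rw [map_sub]
    abel
  rw [e]
  refine (norm_sub_le _ _).trans ?_
  rw [hiso]
  refine (add_le_add_left (norm_add_le _ _) _).trans ?_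
  linarith [hCball w hw]

end Pool.Agent.TH726.OT
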